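import Mathlib

/-! AR (Remez for algebraic leaves), step 5: a polynomial in algebraic functions is algebraic, of controlled degree
(linear algebra: count of dimensions). -/

set_option autoImplicit false

namespace Pool.Agent.Helper85.AR

open Polynomial

section abs

variable {𝓐 : Type*} [CommRing 𝓐] [Algebra ℂ 𝓐] {k g : ℕ} (s : 𝓐) (F : Fin k → 𝓐)

/-- generators -/
noncomputable def gen (g : ℕ) (a : ℕ) (p : Fin (a + 1) × (Fin k → Fin g)) : 𝓐 := s ^ (p.1 : ℕ) * ∏ j, F j ^ (p.2 j : ℕ)

/-- the spaces -/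
noncomputable def VV (g : ℕ) (a : ℕ) : Submodule ℂ 𝓐 := Submodule.span ℂ (Set.range (gen s F g a))

theorem mem_VV {a b : ℕ} (hb : b ≤ a) (α : Fin k → ℕ) (hα : ∀ j, α j < g) : s ^ b * ∏ j, F j ^ (α j) ∈ VV s F g a :=
  Submodule.subset_span ⟨(⟨b, Nat.lt_succ_of_le hb⟩, fun j => ⟨α j, hα j⟩), rfl⟩

theorem VV_mul_le {a b : ℕ} {x : 𝓐} (h : ∀ c ≤ a, ∀ α : Fin k → ℕ, (∀ j, α j < g) → x * (s ^ c * ∏ j, F j ^ (α j)) ∈ VV s F g b) :
    ∀ v ∈ VV s F g a, x * v ∈ VV s F g b := by
  intro v hv
  induction hv using Submodule.span_induction with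
  | mem v hv =>
    obtain ⟨⟨c, α⟩, rfl⟩ := hv
    exact h c (Nat.lt_succ_iff.mp c.2) (fun j => α j) (fun j => (α j).2)
  | zero => rw [mul_zero]; exact Submodule.zero_mem _
  | add u v _ _ hu hv => rw [mul_add]; exact Submodule.add_mem _ hu hv
  | smul r v _ hv => rw [mul_smul_comm]; exact Submodule.smul_mem _ _ hv

theorem VV_pow {a : ℕ} (e : ℕ) : ∀ v ∈ VV s F g a, s ^ e * v ∈ VV s F g (a + e) := by
  refine VV_mul_le s F ?_
  intro c hc α hα
  rw [← mul_assoc, ← pow_add]
  exact mem_VV s F (by omega) α hα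

theorem VV_mono {a b : ℕ} (h : a ≤ b) : VV s F g a ≤ VV s F g b := by
  intro v hv
  have := VV_mul_le (x := 1) (b := b) s F (g := g) (a := a) (fun c hc α hα => by
    rw [one_mul]
    exact mem_VV s F (hc.trans h) α hα) v hv
  rwa [one_mul] at this

theorem VV_aeval {a e : ℕ} (p : ℂ[X]) (hp : p.natDegree ≤ e) : ∀ v ∈ VV s F g a, aeval s p * v ∈ VV s F g (a + e) := by
  intro v hv
  rw [Polynomial.aeval_eq_sum_range, Finset.sum_mul]
  refine Submodule.sum_mem _ fun i hi => ?_
  rw [smul_mul_assoc]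
  refine Submodule.smul_mem _ _ ?_
  refine VV_mono s F ?_ (VV_pow s F i v hv)
  have := Finset.mem_range.mp hi
  omega

variable (H : Fin k → ℂ[X][X])

/-- product of the leading coefficients -/
noncomputable def Lc : ℂ[X] := ∏ j, (H j).leadingCoeff

variable {H}

theorem Lc_deg (hdeg : ∀ j i, ((H j).coeff i).natDegree ≤ g) : (Lc H).natDegree ≤ k * g := by
  unfold Lc
  refine (Polynomial.natDegree_prod_le _ _).trans ?_
  refine (Finset.sum_le_card_nsmul _ _ g fun j _ => hdeg j _).trans ?_
  rw [Finset.card_univ, Fintype.card_fin, smul_eq_mul]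

theorem Lc_F (hg : 1 ≤ g) (hnd : ∀ j, (H j).natDegree = g) (hdeg : ∀ j i, ((H j).coeff i).natDegree ≤ g)
    (hH : ∀ j, ∑ i ∈ Finset.range (g + 1), aeval s ((H j).coeff i) * F j ^ i = 0) (j : Fin k) {a : ℕ} :
    ∀ v ∈ VV s F g a, aeval s (Lc H) * F j * v ∈ VV s F g (a + k * g) := by
  refine VV_mul_le s F ?_
  intro c hc α hα
  have hsplit : ∀ β : Fin k → ℕ, ∏ i, F i ^ (β i) = F j ^ (β j) * ∏ i ∈ Finset.univ.erase j, F i ^ (β i) := by
    intro β
    exact (Finset.mul_prod_erase Finset.univ (fun i => F i ^ β i) (Finset.mem_univ j)).symm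
  by_cases hj : α j + 1 < g
  · -- no reduction
    have h1 : s ^ c * ∏ i, F i ^ ((Function.update α j (α j + 1)) i) ∈ VV s F g a := by
      refine mem_VV s F hc _ fun i => ?_
      by_cases hi : i = j
      · subst hi
        rw [Function.update_self]
        exact hj
      · rw [Function.update_of_ne hi]
        exact hα i
    have h2 := VV_aeval s F (Lc H) (Lc_deg hdeg) _ h1
    have h3 : aeval s (Lc H) * F j * (s ^ c * ∏ i, F i ^ (α i))
        = aeval s (Lc H) * (s ^ c * ∏ i, F i ^ ((Function.update α j (α j + 1)) i)) := by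
      rw [hsplit α, hsplit (Function.update α j (α j + 1)), Function.update_self]
      have h4 : ∏ i ∈ Finset.univ.erase j, F i ^ ((Function.update α j (α j + 1)) i) = ∏ i ∈ Finset.univ.erase j, F i ^ (α i) := by
        refine Finset.prod_congr rfl fun i hi => ?_
        rw [Function.update_of_ne (Finset.ne_of_mem_erase hi)]
      rw [h4, pow_succ]
      ring
    rw [h3]
    exact h2
  · -- reduction
    have hj' : α j + 1 = g := by
      have := hα j
      omega
    have hlc : (H j).coeff g = (H j).leadingCoeff := by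
      rw [← hnd j]
      rfl
    have h1 : aeval s (H j).leadingCoeff * F j ^ g = - ∑ i ∈ Finset.range g, aeval s ((H j).coeff i) * F j ^ i := by
      have := hH j
      rw [Finset.sum_range_succ, hlc] at this
      linear_combination this
    have h2 : aeval s (Lc H) = aeval s (∏ i ∈ Finset.univ.erase j, (H i).leadingCoeff) * aeval s (H j).leadingCoeff := by
      unfold Lc
      rw [← Finset.mul_prod_erase _ _ (Finset.mem_univ j), map_mul]
      ring
    have h3 : aeval s (Lc H) * F j * (s ^ c * ∏ i, F i ^ (α i))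
        = - ∑ i ∈ Finset.range g, aeval s ((∏ i ∈ Finset.univ.erase j, (H i).leadingCoeff) * (H j).coeff i) *
            (s ^ c * ∏ i', F i' ^ ((Function.update α j i) i')) := by
      have h4 : ∀ i, ∏ i', F i' ^ ((Function.update α j i) i') = F j ^ i * ∏ i' ∈ Finset.univ.erase j, F i' ^ (α i') := by
        intro i
        rw [hsplit (Function.update α j i), Function.update_self]
        congr 1
        refine Finset.prod_congr rfl fun i' hi' => ?_
        rw [Function.update_of_ne (Finset.ne_of_mem_erase hi')]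
      simp only [h4, map_mul]
      rw [hsplit α, h2]
      have h5 : F j * F j ^ (α j) = F j ^ g := by rw [← hj', pow_succ]; ring
      have h6 : aeval s (∏ i ∈ Finset.univ.erase j, (H i).leadingCoeff) * aeval s (H j).leadingCoeff * F j *
          (s ^ c * (F j ^ α j * ∏ i ∈ Finset.univ.erase j, F i ^ α i))
          = aeval s (∏ i ∈ Finset.univ.erase j, (H i).leadingCoeff) * (aeval s (H j).leadingCoeff * F j ^ g) *
          (s ^ c * ∏ i ∈ Finset.univ.erase j, F i ^ α i) := by
        rw [← h5]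
        ring
      rw [h6, h1, mul_neg, neg_mul, Finset.mul_sum, Finset.sum_mul]
      congr 1
      refine Finset.sum_congr rfl fun i _ => ?_
      ring
    rw [h3]
    refine Submodule.neg_mem _ (Submodule.sum_mem _ fun i hi => ?_)
    have hi' := Finset.mem_range.mp hi
    refine VV_aeval s F _ ?_ _ (mem_VV s F hc _ fun i' => ?_)
    · refine (Polynomial.natDegree_mul_le).trans ?_
      have h7 : (∏ i ∈ Finset.univ.erase j, (H i).leadingCoeff).natDegree ≤ (k - 1) * g := by
        refine (Polynomial.natDegree_prod_le _ _).trans ?_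
        refine (Finset.sum_le_card_nsmul _ _ g fun j _ => hdeg j _).trans ?_
        rw [Finset.card_erase_of_mem (Finset.mem_univ j), Finset.card_univ, Fintype.card_fin, smul_eq_mul]
      have h8 := hdeg j i
      have hk : 1 ≤ k := Nat.one_le_iff_ne_zero.mpr (by
        rintro rfl
        exact Fin.elim0 j)
      have h9 : (k - 1) * g + g = k * g := by
        obtain ⟨k', rfl⟩ := Nat.exists_eq_add_of_le hk
        have : 1 + k' - 1 = k' := by omega
        rw [this]
        ring
      omega
    · by_cases hi2 : i' = j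
      · subst hi2
        rw [Function.update_self]
        exact hi'
      · rw [Function.update_of_ne hi2]
        exact hα i'

/-- multiplication by L^e x maps V_a into V_(a + e k g) -/
def IsT (H : Fin k → ℂ[X][X]) (g e : ℕ) (x : 𝓐) : Prop :=
  ∀ a, ∀ v ∈ VV s F g a, aeval s (Lc H) ^ e * x * v ∈ VV s F g (a + e * (k * g))

theorem isT_one : IsT s F H g 0 1 := by
  intro a v hv
  rw [pow_zero, one_mul, one_mul, zero_mul, add_zero]
  exact hv

theorem isT_mul {e e' : ℕ} {x y : 𝓐} (hx : IsT s F H g e x) (hy : IsT s F H g e' y) : IsT s F H g (e + e') (x * y) := by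
  intro a v hv
  have h1 := hx _ _ (hy a v hv)
  have h2 : aeval s (Lc H) ^ (e + e') * (x * y) * v = aeval s (Lc H) ^ e * x * (aeval s (Lc H) ^ e' * y * v) := by
    rw [pow_add]
    ring
  rw [h2]
  have h3 : a + (e + e') * (k * g) = a + e' * (k * g) + e * (k * g) := by ring
  rw [h3]
  exact h1

theorem isT_mono (hdeg : ∀ j i, ((H j).coeff i).natDegree ≤ g) {e e' : ℕ} (h : e ≤ e') {x : 𝓐} (hx : IsT s F H g e x) :
    IsT s F H g e' x := by
  obtain ⟨d, rfl⟩ := Nat.exists_eq_add_of_le h
  intro a v hv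
  have h1 := hx _ _ hv
  have h2 : aeval s (Lc H) ^ (e + d) * x * v = aeval s (Lc H ^ d) * (aeval s (Lc H) ^ e * x * v) := by
    rw [map_pow, pow_add]
    ring
  rw [h2]
  have h3 : a + (e + d) * (k * g) = a + e * (k * g) + d * (k * g) := by ring
  rw [h3]
  refine VV_aeval s F _ ?_ _ h1
  refine Polynomial.natDegree_pow_le.trans ?_
  exact Nat.mul_le_mul_left d (Lc_deg hdeg)

theorem isT_pow {e : ℕ} {x : 𝓐} (hx : IsT s F H g e x) (n : ℕ) : IsT s F H g (n * e) (x ^ n) := by
  induction n with
  | zero => rw [zero_mul, pow_zero]; exact isT_one s F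
  | succ n ih =>
    rw [pow_succ]
    have h1 := isT_mul s F ih hx
    have h2 : (n + 1) * e = n * e + e := by ring
    rw [h2]
    exact h1

theorem isT_prod {ι : Type*} (t : Finset ι) {e : ι → ℕ} {x : ι → 𝓐} (hx : ∀ i ∈ t, IsT s F H g (e i) (x i)) :
    IsT s F H g (∑ i ∈ t, e i) (∏ i ∈ t, x i) := by
  classical
  induction t using Finset.induction_on with
  | empty => rw [Finset.sum_empty, Finset.prod_empty]; exact isT_one s F
  | insert a t ha ih =>
    rw [Finset.sum_insert ha, Finset.prod_insert ha]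
    exact isT_mul s F (hx a (Finset.mem_insert_self a t)) (ih fun i hi => hx i (Finset.mem_insert_of_mem hi))

theorem isT_sum {ι : Type*} (t : Finset ι) {e : ℕ} {x : ι → 𝓐} (hx : ∀ i ∈ t, IsT s F H g e (x i)) :
    IsT s F H g e (∑ i ∈ t, x i) := by
  intro a v hv
  rw [Finset.mul_sum, Finset.sum_mul]
  exact Submodule.sum_mem _ fun i hi => hx i hi a v hv

theorem isT_smul {e : ℕ} {x : 𝓐} (hx : IsT s F H g e x) (r : ℂ) : IsT s F H g e (r • x) := by
  intro a v hv
  rw [mul_smul_comm, smul_mul_assoc]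
  exact Submodule.smul_mem _ _ (hx a v hv)

theorem isT_eval (hg : 1 ≤ g) (hnd : ∀ j, (H j).natDegree = g) (hdeg : ∀ j i, ((H j).coeff i).natDegree ≤ g)
    (hH : ∀ j, ∑ i ∈ Finset.range (g + 1), aeval s ((H j).coeff i) * F j ^ i = 0) (P : MvPolynomial (Fin k) ℂ) {D : ℕ}
    (hP : P.totalDegree ≤ D) : IsT s F H g D (MvPolynomial.aeval F P) := by
  rw [MvPolynomial.aeval_def, MvPolynomial.eval₂_eq']
  refine isT_sum s F _ fun β hβ => ?_
  rw [← Algebra.smul_def]
  refine isT_smul s F ?_ _
  have h1 : IsT s F H g (∑ j, β j) (∏ j, F j ^ β j) := by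
    refine isT_prod s F _ fun j _ => ?_
    have h2 : IsT s F H g 1 (F j) := by
      intro a v hv
      rw [pow_one, one_mul]
      exact Lc_F s F hg hnd hdeg hH j v hv
    have h3 := isT_pow s F h2 (β j)
    rwa [mul_one] at h3
  refine isT_mono s F hdeg ?_ h1
  refine le_trans ?_ hP
  have h4 := MvPolynomial.le_totalDegree hβ
  rw [Finsupp.sum_fintype _ _ (fun _ => rfl)] at h4
  exact h4

theorem finrank_VV (a : ℕ) : Module.finrank ℂ (VV s F g a) ≤ (a + 1) * g ^ k := by
  have h1 := finrank_range_le_card (R := ℂ) (gen s F g a)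
  rw [Fintype.card_prod, Fintype.card_fin, Fintype.card_fun, Fintype.card_fin, Fintype.card_fin] at h1
  exact h1

/-- ANNIHILATOR of a polynomial in algebraic elements, up to the factor L -/
theorem exists_ann (hg : 1 ≤ g) (hnd : ∀ j, (H j).natDegree = g) (hdeg : ∀ j i, ((H j).coeff i).natDegree ≤ g)
    (hH : ∀ j, ∑ i ∈ Finset.range (g + 1), aeval s ((H j).coeff i) * F j ^ i = 0) (P : MvPolynomial (Fin k) ℂ) {D : ℕ}
    (hP : P.totalDegree ≤ D) (A : ℕ) (hA : g ^ k * D * (k * g) * g ^ k ≤ A) :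
    ∃ Q : ℂ[X][X], Q ≠ 0 ∧ Q.natDegree ≤ g ^ k ∧ (∀ j, (Q.coeff j).natDegree ≤ A) ∧
      ∃ e : ℕ, aeval s (Lc H) ^ e * ∑ j ∈ Finset.range (g ^ k + 1), aeval s (Q.coeff j) * (MvPolynomial.aeval F P) ^ j = 0 := by
  classical
  set f := MvPolynomial.aeval F P with hf
  set N := g ^ k with hN
  set e := N * D with he
  set b := A + e * (k * g) with hb
  have hT : ∀ j ≤ N, IsT s F H g e (f ^ j) := by
    intro j hj
    refine isT_mono s F hdeg ?_ (isT_pow s F (isT_eval s F hg hnd hdeg hH P hP) j)
    exact Nat.mul_le_mul_right D hj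
  have h1V : (1 : 𝓐) ∈ VV s F g 0 := by
    have := mem_VV (g := g) (a := 0) (b := 0) s F le_rfl (fun _ => 0) (fun _ => by omega)
    simpa using this
  -- the family
  set u : Fin (A + 1) × Fin (N + 1) → VV s F g b := fun p =>
    ⟨aeval s (Lc H) ^ e * f ^ (p.2 : ℕ) * (s ^ (p.1 : ℕ) * 1), by
      have h2 := VV_pow s F (p.1 : ℕ) _ h1V
      have h3 := hT (p.2 : ℕ) (Nat.lt_succ_iff.mp p.2.2) _ _ h2
      refine VV_mono s F ?_ h3
      have := p.1.2
      omega⟩ with hu
  have hfin : Module.Finite ℂ (VV s F g b) := by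
    unfold VV
    exact Module.Finite.span_of_finite ℂ (Set.finite_range _)
  have hnli : ¬ LinearIndependent ℂ u := by
    intro h
    have h2 := h.fintype_card_le_finrank
    rw [Fintype.card_prod, Fintype.card_fin, Fintype.card_fin] at h2
    have h3 := h2.trans (finrank_VV s F b)
    rw [← hN, hb] at h3
    have h4 : e * (k * g) * N ≤ A := by
      rw [he]
      have : N * D * (k * g) * N ≤ A := hA
      exact this
    nlinarith
  rw [Fintype.not_linearIndependent_iff] at hnli
  obtain ⟨c, hc0, p₀, hp₀⟩ := hnli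
  -- the polynomial
  set Q : ℂ[X][X] := ∑ j : Fin (N + 1), Polynomial.C (∑ i : Fin (A + 1), Polynomial.C (c (i, j)) * X ^ (i : ℕ)) * X ^ (j : ℕ) with hQ
  have hQc : ∀ j : Fin (N + 1), Q.coeff (j : ℕ) = ∑ i : Fin (A + 1), Polynomial.C (c (i, j)) * X ^ (i : ℕ) := by
    intro j
    rw [hQ, Polynomial.finsetSum_coeff, Finset.sum_eq_single j]
    · rw [Polynomial.coeff_C_mul_X_pow, if_pos rfl]
    · intro j' _ hj'
      rw [Polynomial.coeff_C_mul_X_pow, if_neg]
      intro h
      exact hj' (Fin.ext h.symm)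
    · intro h
      exact absurd (Finset.mem_univ j) h
  have hQcc : ∀ (i : Fin (A + 1)) (j : Fin (N + 1)), (Q.coeff (j : ℕ)).coeff (i : ℕ) = c (i, j) := by
    intro i j
    rw [hQc, Polynomial.finsetSum_coeff, Finset.sum_eq_single i]
    · rw [Polynomial.coeff_C_mul_X_pow, if_pos rfl]
    · intro i' _ hi'
      rw [Polynomial.coeff_C_mul_X_pow, if_neg]
      intro h
      exact hi' (Fin.ext h.symm)
    · intro h
      exact absurd (Finset.mem_univ i) h
  refine ⟨Q, ?_, ?_, ?_, e, ?_⟩
  · intro h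
    apply hp₀
    have h1 := hQcc p₀.1 p₀.2
    rw [h, Polynomial.coeff_zero, Polynomial.coeff_zero] at h1
    exact h1.symm
  · rw [hQ]
    refine Polynomial.natDegree_sum_le_of_forall_le _ _ fun j _ => ?_
    refine (Polynomial.natDegree_C_mul_X_pow_le _ _).trans ?_
    exact Nat.lt_succ_iff.mp j.2
  · intro j
    by_cases hj : j ≤ N
    · have h1 := hQc ⟨j, Nat.lt_succ_of_le hj⟩
      simp only at h1
      rw [h1]
      refine Polynomial.natDegree_sum_le_of_forall_le _ _ fun i _ => ?_
      refine (Polynomial.natDegree_C_mul_X_pow_le _ _).trans ?_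
      exact Nat.lt_succ_iff.mp i.2
    · have h1 : Q.coeff j = 0 := by
        refine Polynomial.coeff_eq_zero_of_natDegree_lt ?_
        rw [not_le] at hj
        refine lt_of_le_of_lt ?_ hj
        rw [hQ]
        refine Polynomial.natDegree_sum_le_of_forall_le _ _ fun j _ => ?_
        refine (Polynomial.natDegree_C_mul_X_pow_le _ _).trans ?_
        exact Nat.lt_succ_iff.mp j.2
      rw [h1, Polynomial.natDegree_zero]
      exact Nat.zero_le _
  · have h1 := congrArg Subtype.val hc0
    rw [Submodule.coe_zero] at h1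
    rw [← h1, hu]
    simp only [Submodule.coe_sum, Submodule.coe_smul]
    rw [Fintype.sum_prod_type_right, Finset.mul_sum, Finset.sum_range]
    refine Finset.sum_congr rfl fun j _ => ?_
    rw [hQc, map_sum, Finset.sum_mul, Finset.mul_sum]
    refine Finset.sum_congr rfl fun i _ => ?_
    rw [map_mul, map_pow, Polynomial.aeval_C, Polynomial.aeval_X, mul_one, Algebra.smul_def]
    ring

end abs

end Pool.Agent.Helper85.AR
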