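import Pool.Agent.Helper85.AR.PJ

/-! AR (Remez for algebraic leaves), step 2: average of log^+ |f| = average over the unit circle of the averages of
log |f - w|. -/

set_option autoImplicit false

namespace Pool.Agent.Helper85.AR

open Complex Metric Real MeasureTheory MeromorphicOn Set Filter Function

/-- the kernel -/
noncomputable def ker (G : ℝ → ℂ) (α β : ℝ) : ℝ := Real.log ‖G β - circleMap 0 1 α‖

theorem ker_left (G : ℝ → ℂ) (β : ℝ) : IntegrableOn (ker G · β) (Ioc 0 (2 * π)) := by
  apply (intervalIntegrable_iff_integrableOn_Ioc_of_le two_pi_pos.le).1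
  have h := circleIntegrable_log_norm_sub_const (a := G β) (c := 0) 1
  rw [CircleIntegrable] at h
  refine h.congr ?_
  intro α _
  simp only [ker, norm_sub_rev]

theorem ker_meas {G : ℝ → ℂ} (hG : Continuous G) : Measurable (fun p : ℝ × ℝ => ker G p.1 p.2) := by
  unfold ker
  have h1 : Measurable (fun p : ℝ × ℝ => G p.2) := hG.measurable.comp measurable_snd
  have h2 : Measurable (fun p : ℝ × ℝ => circleMap 0 1 p.1) := (continuous_circleMap 0 1).measurable.comp measurable_fst
  exact (h1.sub h2).norm.log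

theorem ker_inner (G : ℝ → ℂ) (β : ℝ) : ∫ α in (0)..(2 * π), ker G α β = 2 * π * log⁺ ‖G β‖ := by
  have h := circleAverage_log_norm_sub_const_eq_posLog (a := G β)
  rw [circleAverage_def, smul_eq_mul] at h
  have h1 : ∀ α, ker G α β = Real.log ‖circleMap 0 1 α - G β‖ := by
    intro α
    unfold ker
    rw [norm_sub_rev]
  simp only [h1]
  have h2 : (0 : ℝ) < 2 * π := two_pi_pos
  field_simp at h ⊢
  linarith

theorem ker_norm (G : ℝ → ℂ) (β : ℝ) :
    ∫ α in Ioc 0 (2 * π), ‖ker G α β‖ =
      2 * (∫ α, (ker G α β)⁺ ∂(volume.restrict (Ioc 0 (2 * π)))) - (2 * π) * log⁺ ‖G β‖ := by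
  have h1 := integral_abs_eq_two_mul_integral_posPart_sub_integral (ker_left G β)
  have h2 := ker_inner G β
  rw [intervalIntegral.integral_of_le two_pi_pos.le] at h2
  rw [← h2]
  simpa only [Real.norm_eq_abs] using h1

theorem ker_pos (G : ℝ → ℂ) (α β : ℝ) : (ker G α β)⁺ ≤ log⁺ ‖G β‖ + Real.log 2 := by
  calc (ker G α β)⁺ = log⁺ ‖G β + (-circleMap 0 1 α)‖ := by
        simp [ker, posLog_def, posPart, max_comm, sub_eq_add_neg]
    _ ≤ log⁺ ‖G β‖ + log⁺ ‖-circleMap 0 1 α‖ + Real.log 2 := posLog_norm_add_le (G β) (-circleMap 0 1 α)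
    _ = log⁺ ‖G β‖ + Real.log 2 := by simp [norm_circleMap_zero, add_comm]

theorem ker_int {G : ℝ → ℂ} (hG : Continuous G) :
    IntegrableOn (fun p : ℝ × ℝ => ker G p.1 p.2) (uIoc 0 (2 * π) ×ˢ uIoc 0 (2 * π)) := by
  rw [IntegrableOn, Measure.volume_eq_prod, ← Measure.prod_restrict, uIoc_of_le two_pi_pos.le]
  refine (integrable_prod_iff' (ker_meas hG).aestronglyMeasurable).2 ⟨Eventually.of_forall (ker_left G), ?_⟩
  -- integrability of the L1 norms
  have hp : Continuous (fun β => log⁺ ‖G β‖) := by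
    refine continuous_posLog.comp ?_
    exact hG.norm
  have hpi : Integrable (fun β => log⁺ ‖G β‖) (volume.restrict (Ioc 0 (2 * π))) := by
    exact (hp.intervalIntegrable 0 (2 * π)).1
  have h_meas_K : Measurable (fun a : ℝ × ℝ => (ker G a.1 a.2)⁺) := by
    have := ker_meas hG
    fun_prop
  have hB : Integrable (fun β => log⁺ ‖G β‖ + Real.log 2) (volume.restrict (Ioc 0 (2 * π))) :=
    hpi.add (integrable_const _)
  have hT : Integrable (fun β => ∫ α, (ker G α β)⁺ ∂(volume.restrict (Ioc 0 (2 * π)))) (volume.restrict (Ioc 0 (2 * π))) := by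
    apply Integrable.mono (hB.const_mul (2 * π)) h_meas_K.stronglyMeasurable.integral_prod_left'.aestronglyMeasurable
    filter_upwards with β
    have h1 : 0 ≤ ∫ α, (ker G α β)⁺ ∂(volume.restrict (Ioc 0 (2 * π))) := by positivity
    have h2 : 0 ≤ (2 * π) * (log⁺ ‖G β‖ + Real.log 2) := by
      have := posLog_nonneg (x := ‖G β‖)
      positivity
    rw [norm_of_nonneg h1, norm_of_nonneg h2]
    have h3 : ∫ α, (ker G α β)⁺ ∂(volume.restrict (Ioc 0 (2 * π))) ≤
        ∫ _, log⁺ ‖G β‖ + Real.log 2 ∂(volume.restrict (Ioc 0 (2 * π))) := by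
      refine integral_mono_of_nonneg (.of_forall (by simp [posPart])) (integrable_const _)
        (.of_forall fun α => ker_pos G α β)
    rwa [integral_const, smul_eq_mul, mul_comm, measureReal_restrict_apply_univ,
      mul_comm, volume_real_Ioc_of_le two_pi_pos.le, sub_zero] at h3
  exact Integrable.congr ((hT.const_mul 2).sub (hpi.const_mul (2 * π)))
    (Eventually.of_forall fun β => (ker_norm G β).symm)

/-- swap -/
theorem ker_swap {G : ℝ → ℂ} (hG : Continuous G) :
    ∫ α in (0)..(2 * π), ∫ β in (0)..(2 * π), ker G α β = ∫ β in (0)..(2 * π), 2 * π * log⁺ ‖G β‖ := by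
  have hs := MeasureTheory.intervalIntegral_intervalIntegral_swap (F := ker G) (a := 0) (b := 2 * π) (c := 0)
    (d := 2 * π) (ker_int hG)
  rw [hs]
  exact intervalIntegral.integral_congr fun β _ => ker_inner G β

theorem ker_right {G : ℝ → ℂ} (hG : Continuous G) :
    IntervalIntegrable (fun α => ∫ β in (0)..(2 * π), ker G α β) volume 0 (2 * π) := by
  rw [intervalIntegrable_iff_integrableOn_Ioc_of_le two_pi_pos.le]
  have h_int := ker_int hG
  rw [uIoc_of_le two_pi_pos.le, IntegrableOn, Measure.volume_eq_prod, ← Measure.prod_restrict] at h_int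
  simpa [IntegrableOn, intervalIntegral.integral_of_le two_pi_pos.le] using h_int.integral_prod_left

/-- If all the averages of log|f - w|, |w| = 1, are at most log|f(0) - w| + B, and |f(0)| ≤ 1, then the average of
log^+ |f| is at most B. -/
theorem avg_posLog_le {f : ℂ → ℂ} {R B : ℝ} (hR : 0 ≤ R) (hf : ContinuousOn f (sphere (0 : ℂ) R)) (h0 : ‖f 0‖ ≤ 1)
    (hB : ∀ w : ℂ, ‖w‖ = 1 → circleAverage (fun z => Real.log ‖f z - w‖) 0 R ≤ Real.log ‖f 0 - w‖ + B) :
    circleAverage (fun z => log⁺ ‖f z‖) 0 R ≤ B := by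
  set G : ℝ → ℂ := fun β => f (circleMap 0 R β) with hG
  have hGc : Continuous G := by
    refine hf.comp_continuous (continuous_circleMap 0 R) ?_
    intro β
    exact circleMap_mem_sphere 0 hR β
  have hπ : (0 : ℝ) < 2 * π := two_pi_pos
  have h1 : circleAverage (fun w => circleAverage (fun z => Real.log ‖f z - w‖) 0 R) 0 1
      = circleAverage (fun z => log⁺ ‖f z‖) 0 R := by
    have e1 : circleAverage (fun w => circleAverage (fun z => Real.log ‖f z - w‖) 0 R) 0 1
        = (2 * π)⁻¹ * ∫ α in (0)..(2 * π), (2 * π)⁻¹ * ∫ β in (0)..(2 * π), ker G α β := by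
      simp only [circleAverage_def, smul_eq_mul, ker, hG]
    have e2 : circleAverage (fun z => log⁺ ‖f z‖) 0 R = (2 * π)⁻¹ * ∫ β in (0)..(2 * π), log⁺ ‖G β‖ := by
      simp only [circleAverage_def, smul_eq_mul, hG]
    rw [e1, e2, intervalIntegral.integral_const_mul, ker_swap hGc, intervalIntegral.integral_const_mul]
    field_simp
  have hci : CircleIntegrable (fun w => circleAverage (fun z => Real.log ‖f z - w‖) 0 R) 0 1 := by
    have := (ker_right hGc).const_mul (2 * π)⁻¹
    simpa only [CircleIntegrable, circleAverage_def, smul_eq_mul, ker, hG] using this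
  have hci0 : CircleIntegrable (fun w => Real.log ‖f 0 - w‖) 0 1 := by
    have := circleIntegrable_log_norm_sub_const (a := f 0) (c := 0) 1
    simpa only [norm_sub_rev] using this
  have h2 : circleAverage (fun w => circleAverage (fun z => Real.log ‖f z - w‖) 0 R) 0 1
      ≤ circleAverage ((fun w => Real.log ‖f 0 - w‖) + (fun _ => B)) 0 1 := by
    refine circleAverage_mono hci (hci0.add (circleIntegrable_const B 0 1)) ?_
    intro w hw
    have hw' : ‖w‖ = 1 := by simpa using hw
    exact hB w hw'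
  rw [h1, circleAverage_add hci0 (circleIntegrable_const B 0 1), circleAverage_const] at h2
  have h3 : circleAverage (fun w => Real.log ‖f 0 - w‖) 0 1 = 0 := by
    have := circleAverage_log_norm_sub_const_eq_posLog (a := f 0)
    have e : (fun w => Real.log ‖f 0 - w‖) = (fun w => Real.log ‖w - f 0‖) := by
      funext w
      rw [norm_sub_rev]
    rw [e, this]
    exact (posLog_eq_zero_iff _).mpr (by rw [abs_of_nonneg (norm_nonneg _)]; exact h0)
  rw [h3, zero_add] at h2
  exact h2

end Pool.Agent.Helper85.AR
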