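import Pool.Agent.Helper85.AR.Rem
import Pool.Agent.Helper85.AR.Ann

/-! AR (Remez for algebraic leaves), step 6: polynomials in the coordinates of an algebraic leaf are in the class AlgF;
Remez inequality on leaves. -/

set_option autoImplicit false

namespace Pool.Agent.Helper85.AR

open Complex Metric Real Set Filter Function Topology

/-- f satisfies a polynomial equation H(z, f z) = 0 on U, of degree ≤ g in both variables -/
def Alg2 (g : ℕ) (U : Set ℂ) (f : ℂ → ℂ) : Prop :=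
  ∃ H : Polynomial (Polynomial ℂ), H ≠ 0 ∧ H.natDegree ≤ g ∧ (∀ j, (H.coeff j).natDegree ≤ g) ∧ ∀ z ∈ U, H.evalEval z (f z) = 0

theorem aeval_pi (U : Set ℂ) (p : Polynomial ℂ) (z : U) :
    (Polynomial.aeval (fun z : U => (z : ℂ)) p) z = p.eval (z : ℂ) := by
  have h1 := Polynomial.aeval_algHom_apply (Pi.evalAlgHom ℂ (fun _ : U => ℂ) z) (fun z : U => (z : ℂ)) p
  rw [Pi.evalAlgHom_apply, Pi.evalAlgHom_apply] at h1
  rw [← h1, Polynomial.coe_aeval_eq_eval]

theorem mv_aeval_pi (U : Set ℂ) {k : ℕ} (Φ : Fin k → ℂ → ℂ) (P : MvPolynomial (Fin k) ℂ) (z : U) :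
    (MvPolynomial.aeval (fun (j : Fin k) (z : U) => Φ j z) P) z = MvPolynomial.eval (fun j => Φ j z) P := by
  have h1 := MvPolynomial.map_aeval (fun (j : Fin k) (z : U) => Φ j z) (Pi.evalAlgHom ℂ (fun _ : U => ℂ) z).toRingHom P
  rw [AlgHom.toRingHom_eq_coe, RingHom.coe_coe, Pi.evalAlgHom_apply] at h1
  rw [h1]
  unfold MvPolynomial.eval
  congr 1

theorem comp_ann {U : Set ℂ} (hU : IsOpen U) {k g : ℕ} (hg : 1 ≤ g) {Φ : Fin k → ℂ → ℂ}
    (hd : ∀ j, DifferentiableOn ℂ (Φ j) U) (hΦ : ∀ j, Alg2 g U (Φ j)) (P : MvPolynomial (Fin k) ℂ) {D : ℕ}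
    (hP : P.totalDegree ≤ D) :
    ∃ Q : Polynomial (Polynomial ℂ), Q ≠ 0 ∧ Q.natDegree ≤ g ^ k ∧
      (∀ j, (Q.coeff j).natDegree ≤ g ^ k * D * (k * g) * g ^ k) ∧
      ∀ z ∈ U, Q.evalEval z (MvPolynomial.eval (fun j => Φ j z) P) = 0 := by
  choose H hH0 hHg hHc hH using hΦ
  -- normalise
  set H' : Fin k → Polynomial (Polynomial ℂ) := fun j => H j * Polynomial.X ^ (g - (H j).natDegree) with hH'
  have hnd : ∀ j, (H' j).natDegree = g := by
    intro j
    rw [hH']
    simp only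
    rw [Polynomial.natDegree_mul_X_pow _ (hH0 j)]
    have := hHg j
    omega
  have hdeg : ∀ j i, ((H' j).coeff i).natDegree ≤ g := by
    intro j i
    rw [hH']
    simp only
    rw [Polynomial.coeff_mul_X_pow']
    split_ifs
    · exact hHc j _
    · rw [Polynomial.natDegree_zero]
      exact Nat.zero_le _
  have hsum : ∀ j, ∑ i ∈ Finset.range (g + 1), Polynomial.aeval (fun z : U => (z : ℂ)) ((H' j).coeff i) *
      (fun (j : Fin k) (z : U) => Φ j z) j ^ i = 0 := by
    intro j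
    funext z
    rw [Finset.sum_apply, Pi.zero_apply]
    have h1 : (H' j).evalEval (z : ℂ) (Φ j z) = 0 := by
      have h2 : (H' j).evalEval (z : ℂ) (Φ j z) = (H j).evalEval (z : ℂ) (Φ j z) * (Φ j z) ^ (g - (H j).natDegree) := by
        rw [hH']
        unfold Polynomial.evalEval
        rw [Polynomial.eval_mul, Polynomial.eval_pow, Polynomial.eval_X, Polynomial.eval_mul, Polynomial.eval_pow,
          Polynomial.eval_C]
      rw [h2, hH j z z.2, zero_mul]
    rw [evalEval_sum, hnd] at h1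
    rw [← h1]
    refine Finset.sum_congr rfl fun i _ => ?_
    rw [Pi.mul_apply, Pi.pow_apply, aeval_pi]
  obtain ⟨Q, hQ0, hQN, hQA, e, hQ⟩ := exists_ann (fun z : U => (z : ℂ)) (fun (j : Fin k) (z : U) => Φ j z) hg hnd hdeg hsum P hP
    (g ^ k * D * (k * g) * g ^ k) le_rfl
  refine ⟨Q, hQ0, hQN, hQA, ?_⟩
  set f : ℂ → ℂ := fun z => MvPolynomial.eval (fun j => Φ j z) P with hf
  have hval : ∀ z ∈ U, (Lc H').eval z ^ e * Q.evalEval z (f z) = 0 := by
    intro z hz
    have h1 := congrFun hQ ⟨z, hz⟩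
    rw [Pi.mul_apply, Pi.pow_apply, aeval_pi, Finset.sum_apply, Pi.zero_apply] at h1
    rw [← h1]
    congr 1
    rw [evalEval_sum, Finset.sum_subset (Finset.range_subset_range.mpr (Nat.succ_le_succ hQN))]
    · refine Finset.sum_congr rfl fun j _ => ?_
      rw [Pi.mul_apply, Pi.pow_apply, aeval_pi, mv_aeval_pi]
    · intro j _ hj
      rw [Finset.mem_range, not_lt] at hj
      rw [Polynomial.coeff_eq_zero_of_natDegree_lt (by omega), Polynomial.eval_zero, zero_mul]
  have hL0 : Lc H' ≠ 0 := by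
    unfold Lc
    refine Finset.prod_ne_zero_iff.mpr fun j _ => ?_
    rw [Polynomial.leadingCoeff_ne_zero]
    intro h
    have h1 := hnd j
    rw [h, Polynomial.natDegree_zero] at h1
    omega
  have hcont : ContinuousOn (fun z => Q.evalEval z (f z)) U := by
    have h1 : (fun z => Q.evalEval z (f z)) = fun z => ∑ j ∈ Finset.range (Q.natDegree + 1), (Q.coeff j).eval z * f z ^ j := by
      funext z
      exact evalEval_sum Q z (f z)
    rw [h1]
    have hfc : ContinuousOn f U := by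
      have h2 : f = fun z => ∑ d ∈ P.support, P.coeff d * ∏ i, Φ i z ^ d i := by
        funext z
        exact MvPolynomial.eval_eq' _ _
      rw [h2]
      refine continuousOn_finsetSum _ fun d _ => ?_
      exact continuousOn_const.mul (continuousOn_finsetProd _ fun i _ => (hd i).continuousOn.pow _)
    refine continuousOn_finsetSum _ fun j _ => ?_
    exact ((Polynomial.continuous _).continuousOn).mul (hfc.pow _)
  intro z hz
  by_contra hne
  have h1 : ∀ᶠ y in 𝓝 z, y ∈ U ∧ Q.evalEval y (f y) ≠ 0 := by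
    have h2 := (hcont.continuousAt (hU.mem_nhds hz)).eventually_ne hne
    filter_upwards [hU.mem_nhds hz, h2] with y hy1 hy2
    exact ⟨hy1, hy2⟩
  have h3 : ∀ᶠ y in 𝓝 z, (Lc H').IsRoot y := by
    filter_upwards [h1] with y hy
    have h4 := hval y hy.1
    rcases mul_eq_zero.mp h4 with h5 | h5
    · by_contra h6
      exact pow_ne_zero e h6 h5
    · exact absurd h5 hy.2
  have h4 : {y | (Lc H').IsRoot y} ∈ 𝓝 z := h3
  have h5 : ({y | (Lc H').IsRoot y} : Set ℂ).Infinite := infinite_of_mem_nhds z h4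
  exact h5 (Polynomial.finite_setOfPred_isRoot hL0)


/-- affine change of the variable in the annihilator -/
theorem affine {H : Polynomial (Polynomial ℂ)} {A : ℕ} (hH : H ≠ 0) (hA : ∀ j, (H.coeff j).natDegree ≤ A) (b c : ℂ)
    (hb : b ≠ 0) :
    ∃ H' : Polynomial (Polynomial ℂ), H' ≠ 0 ∧ (∀ j, (H'.coeff j).natDegree ≤ A) ∧ H'.natDegree ≤ H.natDegree ∧
      ∀ z w, H'.evalEval z w = H.evalEval (b * z + c) w := by
  set l : Polynomial ℂ := Polynomial.C b * Polynomial.X + Polynomial.C c with hl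
  set l' : Polynomial ℂ := Polynomial.C b⁻¹ * Polynomial.X - Polynomial.C (b⁻¹ * c) with hl'
  have hll : l.comp l' = Polynomial.X := by
    rw [hl, hl', Polynomial.add_comp, Polynomial.mul_comp, Polynomial.C_comp, Polynomial.X_comp, Polynomial.C_comp,
      mul_sub, ← mul_assoc, ← Polynomial.C_mul, ← Polynomial.C_mul, mul_inv_cancel₀ hb, ← mul_assoc, mul_inv_cancel₀ hb,
      one_mul, Polynomial.C_1, one_mul, sub_add_cancel]
  have hnd : (H.map (Polynomial.compRingHom l)).natDegree ≤ H.natDegree := Polynomial.natDegree_map_le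
  have hc0 : ∀ j, (H.map (Polynomial.compRingHom l)).coeff j = 0 → H.coeff j = 0 := by
    intro j h1
    rw [Polynomial.coeff_map, Polynomial.coe_compRingHom_apply] at h1
    have h3 := congrArg (fun q => q.comp l') h1
    simp only [Polynomial.zero_comp] at h3
    rw [Polynomial.comp_assoc, hll, Polynomial.comp_X] at h3
    exact h3
  refine ⟨H.map (Polynomial.compRingHom l), ?_, ?_, hnd, ?_⟩
  · intro h
    apply hH
    refine Polynomial.ext fun j => ?_
    rw [Polynomial.coeff_zero]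
    refine hc0 j ?_
    rw [h, Polynomial.coeff_zero]
  · intro j
    rw [Polynomial.coeff_map, Polynomial.coe_compRingHom_apply]
    refine Polynomial.natDegree_comp_le.trans ?_
    have h1 : l.natDegree ≤ 1 := Polynomial.natDegree_linear_le
    calc (H.coeff j).natDegree * l.natDegree ≤ (H.coeff j).natDegree * 1 := Nat.mul_le_mul_left _ h1
      _ ≤ A := by rw [mul_one]; exact hA j
  · intro z w
    rw [evalEval_sum, evalEval_sum, Finset.sum_subset (Finset.range_subset_range.mpr (Nat.succ_le_succ hnd))]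
    · refine Finset.sum_congr rfl fun j _ => ?_
      rw [Polynomial.coeff_map, Polynomial.coe_compRingHom_apply, Polynomial.eval_comp, hl, Polynomial.eval_add,
        Polynomial.eval_mul, Polynomial.eval_C, Polynomial.eval_X, Polynomial.eval_C]
    · intro j _ hj
      rw [Finset.mem_range, not_lt] at hj
      rw [Polynomial.coeff_eq_zero_of_natDegree_lt (by omega), Polynomial.eval_zero, zero_mul]

theorem AlgF.aff {A : ℕ} {η : ℝ} {f : ℂ → ℂ} (hf : AlgF A η f) {a L : ℝ} (ha : 0 ≤ a) (hL : 0 < L) (haL : a + L ≤ 1) :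
    AlgF A η (fun z => f (L * z + a)) := by
  obtain ⟨U, hU, hRU, hd, H, hH0, hA, hH⟩ := hf
  have hLC : (L : ℂ) ≠ 0 := by exact_mod_cast hL.ne'
  obtain ⟨H', hH'0, hA', -, hH'⟩ := affine hH0 hA (L : ℂ) (a : ℂ) hLC
  have hcont : Continuous (fun z : ℂ => (L : ℂ) * z + a) := by fun_prop
  refine ⟨(fun z : ℂ => (L : ℂ) * z + a) ⁻¹' U, hU.preimage hcont, ?_, ?_, H', hH'0, hA', ?_⟩
  · intro t ht z hz
    have ht' : L * t + a ∈ Icc (0 : ℝ) 1 := by
      constructor
      · have := mul_nonneg hL.le ht.1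
        linarith
      · have := mul_le_mul_of_nonneg_left ht.2 hL.le
        linarith
    refine hRU _ ht' ?_
    rw [mem_closedBall_iff_norm] at hz ⊢
    have h1 : (L : ℂ) * z + a - ((L * t + a : ℝ) : ℂ) = L * (z - t) := by
      push_cast
      ring
    rw [h1, norm_mul, Complex.norm_real, Real.norm_eq_abs, abs_of_pos hL]
    have h2 : L ≤ 1 := by linarith
    calc L * ‖z - t‖ ≤ 1 * ‖z - t‖ := mul_le_mul_of_nonneg_right h2 (norm_nonneg _)
      _ ≤ η := by rw [one_mul]; exact hz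
  · refine hd.comp (by fun_prop) ?_
    intro z hz
    exact hz
  · intro z hz
    rw [hH']
    exact hH _ hz

/-- an algebraic leaf (curve): coordinates analytic on the η-neighbourhood of [0,1], algebraic of degree ≤ g -/
def LeafC (k g : ℕ) (η : ℝ) (Φ : Fin k → ℂ → ℂ) : Prop :=
  ∃ U : Set ℂ, IsOpen U ∧ (∀ t ∈ Icc (0 : ℝ) 1, closedBall (t : ℂ) η ⊆ U) ∧ (∀ j, DifferentiableOn ℂ (Φ j) U) ∧
    ∀ j, Alg2 g U (Φ j)

theorem LeafC.algF {k g : ℕ} {η : ℝ} {Φ : Fin k → ℂ → ℂ} (hΦ : LeafC k g η Φ) (hg : 1 ≤ g) (P : MvPolynomial (Fin k) ℂ)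
    {D : ℕ} (hP : P.totalDegree ≤ D) :
    AlgF (g ^ k * D * (k * g) * g ^ k) η (fun z => MvPolynomial.eval (fun j => Φ j z) P) := by
  obtain ⟨U, hU, hRU, hd, hA⟩ := hΦ
  obtain ⟨Q, hQ0, -, hQA, hQ⟩ := comp_ann hU hg hd hA P hP
  refine ⟨U, hU, hRU, ?_, Q, hQ0, hQA, hQ⟩
  have h2 : (fun z => MvPolynomial.eval (fun j => Φ j z) P) = fun z => ∑ d ∈ P.support, P.coeff d * ∏ i, Φ i z ^ d i := by
    funext z
    exact MvPolynomial.eval_eq' _ _
  rw [h2]
  refine DifferentiableOn.fun_sum fun d _ => ?_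
  refine (differentiableOn_const _).mul ?_
  refine DifferentiableOn.fun_finsetProd fun i _ => (hd i).pow _

/-- REMEZ on intervals: for f in AlgF, an interval [a, a + L] in [0,1], N + 1 points of it with gaps ≥ δ -/
theorem remL (A : ℕ) (η : ℝ) (hη : 0 < η) : ∃ (N : ℕ) (C : ℝ), 1 ≤ N ∧ 1 ≤ C ∧ ∀ f : ℂ → ℂ, AlgF A η f →
    ∀ a L : ℝ, 0 ≤ a → 0 < L → a + L ≤ 1 → ∀ x : Fin (N + 1) → ℝ, (∀ i, x i ∈ Icc a (a + L)) → ∀ δ : ℝ, 0 < δ →
      (∀ i j, i ≠ j → δ ≤ |x i - x j|) → ∀ ε : ℝ, (∀ i, ‖f (x i)‖ ≤ ε) →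
        ∀ t ∈ Icc a (a + L), ∀ z ∈ closedBall (t : ℂ) (L * (η / 32)), ‖f z‖ ≤ C * (L / δ) ^ N * ε := by
  obtain ⟨N, C, hN, hC, h⟩ := sepR A η hη
  refine ⟨N, C, hN, hC, ?_⟩
  intro f hf a L ha hL haL x hx δ hδ hsep ε hε t ht z hz
  have hLC : (L : ℂ) ≠ 0 := by exact_mod_cast hL.ne'
  have h1 := h _ (hf.aff ha hL haL) (fun i => (x i - a) / L) (fun i => by
    have := hx i
    constructor
    · exact div_nonneg (by linarith [this.1]) hL.le
    · rw [div_le_one hL]
      linarith [this.2]) (δ / L) (div_pos hδ hL) (fun i j hij => by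
    have e1 : (x i - a) / L - (x j - a) / L = (x i - x j) / L := by ring
    rw [e1, abs_div, abs_of_pos hL]
    exact div_le_div_of_nonneg_right (hsep i j hij) hL.le) ε (fun i => by
    have e1 : (L : ℂ) * (((x i - a) / L : ℝ) : ℂ) + a = (x i : ℂ) := by
      push_cast
      field_simp
      ring
    rw [e1]
    exact hε i) ((t - a) / L) (by
    constructor
    · exact div_nonneg (by linarith [ht.1]) hL.le
    · rw [div_le_one hL]
      linarith [ht.2]) ((z - a) / L) (by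
    rw [mem_closedBall_iff_norm] at hz ⊢
    have e1 : (z - a) / L - (((t - a) / L : ℝ) : ℂ) = (z - t) / L := by
      push_cast
      ring
    rw [e1, norm_div, Complex.norm_real, Real.norm_eq_abs, abs_of_pos hL, div_le_iff₀ hL, mul_comm]
    exact hz)
  have e1 : (L : ℂ) * ((z - a) / L) + a = z := by
    field_simp
    ring
  have e2 : 1 / (δ / L) = L / δ := by rw [one_div_div]
  rw [e1, e2] at h1
  exact h1

/-- BERNSTEIN: the η L/32-neighbourhood of an interval is controlled by the interval -/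
theorem bernL (A : ℕ) (η : ℝ) (hη : 0 < η) : ∃ C : ℝ, 1 ≤ C ∧ ∀ f : ℂ → ℂ, AlgF A η f →
    ∀ a L : ℝ, 0 ≤ a → 0 < L → a + L ≤ 1 → ∀ M : ℝ, (∀ t ∈ Icc a (a + L), ‖f t‖ ≤ M) →
      ∀ t ∈ Icc a (a + L), ∀ z ∈ closedBall (t : ℂ) (L * (η / 32)), ‖f z‖ ≤ C * M := by
  obtain ⟨N, C, hN, hC, h⟩ := remL A η hη
  have hN0 : (0 : ℝ) < N := by exact_mod_cast hN
  have hN1 : (1 : ℝ) ≤ (N : ℝ) ^ N := one_le_pow₀ (by exact_mod_cast hN)
  refine ⟨C * (N : ℝ) ^ N, one_le_mul_of_one_le_of_one_le hC hN1, ?_⟩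
  intro f hf a L ha hL haL M hM t ht z hz
  have hx : ∀ i : Fin (N + 1), a + (i : ℕ) * (L / N) ∈ Icc a (a + L) := by
    intro i
    have hi : ((i : ℕ) : ℝ) ≤ N := by exact_mod_cast Nat.lt_succ_iff.mp i.2
    constructor
    · have : 0 ≤ ((i : ℕ) : ℝ) * (L / N) := by positivity
      linarith
    · have h1 : ((i : ℕ) : ℝ) * (L / N) ≤ N * (L / N) := mul_le_mul_of_nonneg_right hi (by positivity)
      have h2 : N * (L / N) = L := by field_simp
      linarith
  have h1 := h f hf a L ha hL haL (fun i => a + (i : ℕ) * (L / N)) hx (L / N) (by positivity) (by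
    intro i j hij
    have e1 : a + ((i : ℕ) : ℝ) * (L / N) - (a + ((j : ℕ) : ℝ) * (L / N)) = (((i : ℕ) : ℝ) - ((j : ℕ) : ℝ)) * (L / N) := by ring
    rw [e1, abs_mul, abs_of_pos (show 0 < L / N by positivity)]
    have h2 : (1 : ℝ) ≤ |((i : ℕ) : ℝ) - ((j : ℕ) : ℝ)| := by
      have h3 : ((i : ℕ) : ℤ) - ((j : ℕ) : ℤ) ≠ 0 := by
        intro h4
        apply hij
        apply Fin.ext
        omega
      have h4 := Int.one_le_abs h3
      exact_mod_cast h4
    calc L / N = 1 * (L / N) := by ring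
      _ ≤ _ := mul_le_mul_of_nonneg_right h2 (by positivity)) M (fun i => hM _ (hx i)) t ht z hz
  have e2 : L / (L / N) = N := by field_simp
  rw [e2] at h1
  exact h1

/-- OSCILLATION -/
theorem oscL (A : ℕ) (η : ℝ) (hη : 0 < η) : ∃ C : ℝ, 1 ≤ C ∧ ∀ f : ℂ → ℂ, AlgF A η f →
    ∀ a L : ℝ, 0 ≤ a → 0 < L → a + L ≤ 1 → ∀ M : ℝ, (∀ t ∈ Icc a (a + L), ‖f t‖ ≤ M) →
      ∀ t ∈ Icc a (a + L), ∀ t' ∈ Icc a (a + L), ‖f t - f t'‖ ≤ C * (|t - t'| / L) * M := by
  obtain ⟨C, hC, h⟩ := bernL A η hη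
  refine ⟨max 1 (C * (32 / η)), le_max_left _ _, ?_⟩
  intro f hf a L ha hL haL M hM t ht t' ht'
  have hM0 : 0 ≤ M := (norm_nonneg _).trans (hM t ht)
  obtain ⟨U, hU, hRU, hd, H, hH0, hA, hH⟩ := hf
  have hf' : AlgF A η f := ⟨U, hU, hRU, hd, H, hH0, hA, hH⟩
  set r := L * (η / 32) with hr
  have hr0 : 0 < r := by positivity
  have hI : ∀ s ∈ Icc a (a + L), s ∈ Icc (0 : ℝ) 1 := fun s hs => ⟨ha.trans hs.1, hs.2.trans haL⟩
  have hrη : r ≤ η := by
    rw [hr]
    have : L ≤ 1 := by linarith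
    nlinarith
  have hder : ∀ s ∈ Icc a (a + L), ‖deriv f (s : ℂ)‖ ≤ C * M / r := by
    intro s hs
    have hb : closedBall (s : ℂ) r ⊆ U := (closedBall_subset_closedBall hrη).trans (hRU s (hI s hs))
    refine Complex.norm_deriv_le_of_forall_mem_sphere_norm_le hr0 ?_ ?_
    · refine DifferentiableOn.diffContOnCl ?_
      rw [closure_ball _ hr0.ne']
      exact hd.mono hb
    · intro z hz
      exact h f hf' a L ha hL haL M hM s hs z (sphere_subset_closedBall hz)
  -- real function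
  set F : ℝ → ℂ := fun s => f (s : ℂ) with hF
  have hFd : ∀ s ∈ Icc a (a + L), HasDerivWithinAt F (deriv f (s : ℂ)) (Icc a (a + L)) s := by
    intro s hs
    have hsU : (s : ℂ) ∈ U := hRU s (hI s hs) (mem_closedBall_self hη.le)
    have h1 : HasDerivAt f (deriv f (s : ℂ)) (s : ℂ) := (hd.differentiableAt (hU.mem_nhds hsU)).hasDerivAt
    exact (h1.comp_ofReal).hasDerivWithinAt
  have h1 := (convex_Icc a (a + L)).norm_image_sub_le_of_norm_hasDerivWithin_le (f := F) (C := C * M / r)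
    hFd hder ht' ht
  have h2 : ‖f t - f t'‖ ≤ C * M / r * |t - t'| := by
    rw [Real.norm_eq_abs] at h1
    exact h1
  refine h2.trans ?_
  have h3 : C * M / r * |t - t'| = C * (32 / η) * (|t - t'| / L) * M := by
    rw [hr]
    field_simp
  rw [h3]
  have h4 : 0 ≤ |t - t'| / L := by positivity
  exact mul_le_mul_of_nonneg_right (mul_le_mul_of_nonneg_right (le_max_right _ _) h4) hM0

end Pool.Agent.Helper85.AR
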