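import Pool.Agent.Helper85.AR.Avg

/-! AR (Remez for algebraic leaves), step 3: a function f which is annihilated by a polynomial H(z, f z) = 0 of degree at
most A in z takes almost every value at most A times; doubling inequality. -/

set_option autoImplicit false

namespace Pool.Agent.Helper85.AR

open Complex Metric Real MeasureTheory MeromorphicOn Set Filter Function Topology

theorem an_poly (p : Polynomial ℂ) (u : ℂ) : AnalyticAt ℂ (fun z => p.eval z) u := p.differentiable.analyticAt u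

/-- order of vanishing of a polynomial -/
theorem order_poly {p : Polynomial ℂ} (hp : p ≠ 0) (u : ℂ) :
    analyticOrderAt (fun z => p.eval z) u = (p.rootMultiplicity u : ℕ∞) := by
  obtain ⟨q, hq, hdvd⟩ := Polynomial.exists_eq_pow_rootMultiplicity_mul_and_not_dvd p hp u
  have han : AnalyticAt ℂ (fun z => p.eval z) u := an_poly p u
  rw [han.analyticOrderAt_eq_natCast]
  refine ⟨fun z => q.eval z, an_poly q u, ?_, ?_⟩
  · intro h0
    exact hdvd (Polynomial.dvd_iff_isRoot.mpr h0)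
  · refine Eventually.of_forall fun z => ?_
    have h1 := congrArg (Polynomial.eval z) hq
    rw [Polynomial.eval_mul, Polynomial.eval_pow, Polynomial.eval_sub, Polynomial.eval_X, Polynomial.eval_C] at h1
    rw [smul_eq_mul]
    exact h1

theorem evalEval_sum (H : Polynomial (Polynomial ℂ)) (z w : ℂ) :
    H.evalEval z w = ∑ j ∈ Finset.range (H.natDegree + 1), (H.coeff j).eval z * w ^ j := by
  unfold Polynomial.evalEval
  rw [Polynomial.eval_eq_sum_range (p := H), Polynomial.eval_finsetSum]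
  refine Finset.sum_congr rfl fun j _ => ?_
  rw [Polynomial.eval_mul, Polynomial.eval_pow, Polynomial.eval_C]

theorem order_le {f : ℂ → ℂ} {u w : ℂ} {H : Polynomial (Polynomial ℂ)} (hf : AnalyticAt ℂ f u)
    (hH : ∀ᶠ z in 𝓝 u, H.evalEval z (f z) = 0) (hw : H.eval (Polynomial.C w) ≠ 0) :
    analyticOrderAt (fun z => f z - w) u ≤ ((H.eval (Polynomial.C w)).rootMultiplicity u : ℕ∞) := by
  set K : ℂ → ℂ := fun z => - ∑ j ∈ Finset.range (H.natDegree + 1), (H.coeff j).eval z *
      ∑ i ∈ Finset.range j, w ^ i * (f z) ^ (j - 1 - i) with hK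
  have hKan : AnalyticAt ℂ K u := by
    rw [hK]
    refine AnalyticAt.neg ?_
    refine Finset.analyticAt_fun_sum _ fun j _ => ?_
    refine AnalyticAt.mul (an_poly _ u) ?_
    refine Finset.analyticAt_fun_sum _ fun i _ => ?_
    exact analyticAt_const.mul (hf.pow _)
  have heq : (fun z => (H.eval (Polynomial.C w)).eval z) =ᶠ[𝓝 u] (fun z => f z - w) * K := by
    filter_upwards [hH] with z hz
    have h1 : (H.eval (Polynomial.C w)).eval z = H.evalEval z w - H.evalEval z (f z) := by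
      rw [hz, sub_zero]
    rw [h1, evalEval_sum, evalEval_sum, ← Finset.sum_sub_distrib, Pi.mul_apply, hK]
    simp only
    rw [mul_neg, Finset.mul_sum, ← Finset.sum_neg_distrib]
    refine Finset.sum_congr rfl fun j _ => ?_
    have h2 := (Commute.all w (f z)).geom_sum₂_mul j
    linear_combination (-(H.coeff j).eval z) * h2
  have h3 : analyticOrderAt (fun z => (H.eval (Polynomial.C w)).eval z) u
      = analyticOrderAt (fun z => f z - w) u + analyticOrderAt K u := by
    rw [analyticOrderAt_congr heq]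
    exact analyticOrderAt_mul (hf.sub analyticAt_const) hKan
  rw [← order_poly hw u, h3]
  exact le_self_add

theorem natDegree_eval_le {H : Polynomial (Polynomial ℂ)} {A : ℕ} (hA : ∀ j, (H.coeff j).natDegree ≤ A) (w : ℂ) :
    (H.eval (Polynomial.C w)).natDegree ≤ A := by
  rw [Polynomial.eval_eq_sum_range]
  refine Polynomial.natDegree_sum_le_of_forall_le _ _ fun j _ => ?_
  rw [← Polynomial.C_pow]
  exact (Polynomial.natDegree_mul_C_le _ _).trans (hA j)

/-- Jensen: average of log|f - w| -/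
theorem jensen_le {f : ℂ → ℂ} {w : ℂ} {H : Polynomial (Polynomial ℂ)} {A : ℕ} {R r₀ : ℝ} (hr₀ : 0 < r₀) (hR : r₀ ≤ R)
    {U : Set ℂ} (hU : IsOpen U) (hRU : closedBall (0 : ℂ) R ⊆ U) (hf : AnalyticOnNhd ℂ f U)
    (hH : ∀ z ∈ U, H.evalEval z (f z) = 0) (hA : ∀ j, (H.coeff j).natDegree ≤ A)
    (hw : H.eval (Polynomial.C w) ≠ 0) (hs : ∀ z ∈ closedBall (0 : ℂ) r₀, f z ≠ w) :
    circleAverage (fun z => Real.log ‖f z - w‖) 0 R ≤ Real.log ‖f 0 - w‖ + A * Real.log (R / r₀) := by
  have hR0 : 0 < R := lt_of_lt_of_le hr₀ hR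
  have han : AnalyticOnNhd ℂ (fun z => f z - w) (closedBall (0 : ℂ) |R|) := by
    intro z hz
    rw [abs_of_pos hR0] at hz
    exact (hf z (hRU hz)).sub analyticAt_const
  have h00 : f 0 - w ≠ 0 := by
    refine sub_ne_zero.mpr (hs 0 ?_)
    simp [hr₀.le]
  have hJ := han.circleAverage_log_norm hR0.ne' h00
  rw [hJ, add_comm]
  refine add_le_add le_rfl ?_
  have hlog0 : 0 ≤ Real.log (R / r₀) := Real.log_nonneg (by rw [le_div_iff₀ hr₀]; linarith)
  set p := H.eval (Polynomial.C w) with hp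
  set D := divisor (fun z => f z - w) (closedBall (0 : ℂ) |R|) with hD
  have hDle : ∀ u ∈ closedBall (0 : ℂ) |R|, D u ≤ (p.rootMultiplicity u : ℤ) := by
    intro u hu
    have huU : u ∈ U := hRU (by rw [abs_of_pos hR0] at hu; exact hu)
    have h1 := order_le (w := w) (hf u huU) (Filter.eventually_of_mem (hU.mem_nhds huU) hH) hw
    have h2 : analyticOrderAt (fun z => f z - w) u ≠ ⊤ := ne_top_of_le_ne_top (ENat.natCast_ne_top _) h1
    rw [hD, han.divisor_apply hu]
    obtain ⟨n, hn⟩ := ENat.ne_top_iff_exists.mp h2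
    rw [← hn] at h1 ⊢
    have h3 : n ≤ p.rootMultiplicity u := by exact_mod_cast h1
    simpa using h3
  have hDn : ∀ u, 0 ≤ D u := fun u => han.divisor_nonneg u
  have hsupp : ∀ u, D u ≠ 0 → u ∈ closedBall (0 : ℂ) |R| ∧ r₀ < ‖u‖ := by
    intro u hu
    have huC : u ∈ closedBall (0 : ℂ) |R| := D.supportWithinDomain hu
    refine ⟨huC, ?_⟩
    by_contra h
    rw [not_lt] at h
    apply hu
    rw [hD, han.divisor_apply huC, (han u huC).analyticOrderAt_eq_zero.mpr]
    · simp
    · exact sub_ne_zero.mpr (hs u (by rw [mem_closedBall_zero_iff]; exact h))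
  have hsum : ∑ᶠ u, (D u : ℝ) * Real.log (R * ‖0 - u‖⁻¹) = ∑ u ∈ p.roots.toFinset, (D u : ℝ) * Real.log (R * ‖0 - u‖⁻¹) := by
    rw [finsum_eq_sum_of_support_subset]
    intro u hu
    have hDu : D u ≠ 0 := by
      intro h
      apply hu
      simp [h]
    have h1 := hDle u (hsupp u hDu).1
    have h2 : 0 < D u := lt_of_le_of_ne (hDn u) (Ne.symm hDu)
    have h3 : 0 < p.rootMultiplicity u := by
      have : (0 : ℤ) < p.rootMultiplicity u := lt_of_lt_of_le h2 h1
      exact_mod_cast this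
    rw [Finset.mem_coe, Multiset.mem_toFinset, Polynomial.mem_roots hw]
    exact (Polynomial.rootMultiplicity_pos hw).mp h3
  rw [hsum]
  have hterm : ∀ u ∈ p.roots.toFinset, (D u : ℝ) * Real.log (R * ‖0 - u‖⁻¹) ≤ (p.roots.count u : ℝ) * Real.log (R / r₀) := by
    intro u _
    by_cases hDu : D u = 0
    · rw [hDu]
      simp only [Int.cast_zero, zero_mul]
      positivity
    · obtain ⟨h1, h2⟩ := hsupp u hDu
      have h3 : (D u : ℝ) ≤ (p.roots.count u : ℝ) := by
        rw [Polynomial.count_roots]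
        exact_mod_cast hDle u h1
      have h4 : ‖u‖ ≤ R := by
        rw [abs_of_pos hR0, mem_closedBall_zero_iff] at h1
        exact h1
      have h5 : 0 < ‖u‖ := lt_trans hr₀ h2
      have h6 : R * ‖0 - u‖⁻¹ ≤ R / r₀ := by
        rw [zero_sub, norm_neg, ← div_eq_mul_inv]
        exact div_le_div_of_nonneg_left hR0.le hr₀ h2.le
      have h7 : 1 ≤ R * ‖0 - u‖⁻¹ := by
        rw [zero_sub, norm_neg, ← div_eq_mul_inv, le_div_iff₀ h5]
        linarith
      have h8 : 0 ≤ Real.log (R * ‖0 - u‖⁻¹) := Real.log_nonneg h7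
      have h9 : Real.log (R * ‖0 - u‖⁻¹) ≤ Real.log (R / r₀) := Real.log_le_log (by linarith) h6
      exact mul_le_mul h3 h9 h8 (Nat.cast_nonneg _)
  refine (Finset.sum_le_sum hterm).trans ?_
  rw [← Finset.sum_mul]
  refine mul_le_mul_of_nonneg_right ?_ hlog0
  have h1 : ∑ u ∈ p.roots.toFinset, p.roots.count u = p.roots.card := Multiset.toFinset_sum_count_eq p.roots
  have h2 : p.roots.card ≤ A := (Polynomial.card_roots' p).trans (natDegree_eval_le hA w)
  have h3 : (∑ u ∈ p.roots.toFinset, (p.roots.count u : ℝ)) = (p.roots.card : ℝ) := by exact_mod_cast h1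
  rw [h3]
  exact_mod_cast h2


/-- pointwise bound from the average of log^+ -/
theorem le_of_avg {R B : ℝ} {s : ℂ} {F : ℂ → ℂ} (hs : s ∈ ball (0 : ℂ) R) (hF : AnalyticOnNhd ℂ F (closedBall (0 : ℂ) R))
    (hB : circleAverage (fun z => log⁺ ‖F z‖) 0 R ≤ B) (hB0 : 0 ≤ B) :
    ‖F s‖ ≤ Real.exp ((R + ‖s‖) / (R - ‖s‖) * B) := by
  have hR : 0 < R := pos_of_mem_ball hs
  have hs' : ‖s‖ < R := by simpa using hs
  by_cases hs0 : F s = 0
  · rw [hs0, norm_zero]
    positivity
  have h1 := pj hs hF hs0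
  have hsub : sphere (0 : ℂ) |R| ⊆ closedBall (0 : ℂ) R := by
    rw [abs_of_pos hR]
    exact sphere_subset_closedBall
  have hc : ContinuousOn (fun z => log⁺ ‖F z‖) (sphere (0 : ℂ) |R|) :=
    continuous_posLog.comp_continuousOn (hF.continuousOn.mono hsub).norm
  have hci : CircleIntegrable (fun z => log⁺ ‖F z‖) 0 R := hc.circleIntegrable'
  have hci2 : CircleIntegrable (Pk s * (fun z => log⁺ ‖F z‖)) 0 R := hci.continuousOn_mul (Pk_cont hs)
  have hci3 : CircleIntegrable (Pk s * (fun z => Real.log ‖F z‖)) 0 R := by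
    refine CircleIntegrable.continuousOn_mul ?_ (Pk_cont hs)
    exact (hF.mono hsub).meromorphicOn.circleIntegrable_log_norm
  have hPle : ∀ z ∈ sphere (0 : ℂ) |R|, Pk s z ≤ (R + ‖s‖) / (R - ‖s‖) ∧ 0 ≤ Pk s z := by
    intro z hz
    rw [abs_of_pos hR] at hz
    have e1 : Pk s z = ((z - 0 + (s - 0)) / ((z - 0) - (s - 0))).re := by
      unfold Pk
      rw [Function.comp_apply, herglotzRieszKernel_def]
    have h2 := re_herglotzRieszKernel_le hz hs
    have h3 := le_re_herglotzRieszKernel hz hs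
    rw [← e1, sub_zero] at h2 h3
    refine ⟨h2, le_trans ?_ h3⟩
    have : 0 ≤ ‖s‖ := norm_nonneg s
    exact div_nonneg (by linarith) (by linarith)
  have h2 : circleAverage (Pk s * (fun z => Real.log ‖F z‖)) 0 R ≤ circleAverage (Pk s * (fun z => log⁺ ‖F z‖)) 0 R := by
    refine circleAverage_mono hci3 hci2 ?_
    intro z hz
    simp only [Pi.mul_apply]
    refine mul_le_mul_of_nonneg_left ?_ (hPle z hz).2
    exact le_max_right _ _
  have h3 : circleAverage (Pk s * (fun z => log⁺ ‖F z‖)) 0 R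
      ≤ circleAverage (((R + ‖s‖) / (R - ‖s‖)) • (fun z => log⁺ ‖F z‖)) 0 R := by
    refine circleAverage_mono hci2 hci.const_smul ?_
    intro z hz
    simp only [Pi.mul_apply, Pi.smul_apply, smul_eq_mul]
    exact mul_le_mul_of_nonneg_right (hPle z hz).1 posLog_nonneg
  rw [circleAverage_smul, smul_eq_mul] at h3
  have h4 : (R + ‖s‖) / (R - ‖s‖) * circleAverage (fun z => log⁺ ‖F z‖) 0 R ≤ (R + ‖s‖) / (R - ‖s‖) * B := by
    refine mul_le_mul_of_nonneg_left hB ?_
    have : 0 ≤ ‖s‖ := norm_nonneg s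
    exact div_nonneg (by linarith) (by linarith)
  have h5 : Real.log ‖F s‖ ≤ (R + ‖s‖) / (R - ‖s‖) * B := h1.trans (h2.trans (h3.trans h4))
  have h6 : 0 < ‖F s‖ := norm_pos_iff.mpr hs0
  rw [← Real.log_le_iff_le_exp h6]
  exact h5

theorem comp_ne {H : Polynomial (Polynomial ℂ)} (W : ℂ) (w z : ℂ) :
    (H.comp (Polynomial.C (Polynomial.C W) * Polynomial.X)).eval (Polynomial.C w) = H.eval (Polynomial.C (W * w)) ∧
    (H.comp (Polynomial.C (Polynomial.C W) * Polynomial.X)).evalEval z w = H.evalEval z (W * w) := by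
  have h1 : (H.comp (Polynomial.C (Polynomial.C W) * Polynomial.X)).eval (Polynomial.C w) = H.eval (Polynomial.C (W * w)) := by
    rw [Polynomial.eval_comp, Polynomial.eval_mul, Polynomial.eval_C, Polynomial.eval_X, ← Polynomial.C_mul]
  refine ⟨h1, ?_⟩
  unfold Polynomial.evalEval
  rw [h1]

/-- doubling, one level -/
theorem dblW {f : ℂ → ℂ} {H : Polynomial (Polynomial ℂ)} {A : ℕ} {R r₀ W : ℝ} (hr₀ : 0 < r₀) (hR : r₀ ≤ R)
    {U : Set ℂ} (hU : IsOpen U) (hRU : closedBall (0 : ℂ) R ⊆ U) (hf : AnalyticOnNhd ℂ f U)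
    (hH : ∀ z ∈ U, H.evalEval z (f z) = 0) (hA : ∀ j, (H.coeff j).natDegree ≤ A)
    (hW : ∀ z ∈ closedBall (0 : ℂ) r₀, ‖f z‖ < W) (hw : ∀ w : ℂ, ‖w‖ = W → H.eval (Polynomial.C w) ≠ 0)
    {s : ℂ} (hs : s ∈ ball (0 : ℂ) R) :
    ‖f s‖ ≤ W * Real.exp ((R + ‖s‖) / (R - ‖s‖) * (A * Real.log (R / r₀))) := by
  have hR0 : 0 < R := lt_of_lt_of_le hr₀ hR
  have hW0 : 0 < W := lt_of_le_of_lt (norm_nonneg _) (hW 0 (by simp [hr₀.le]))
  have hWC : (W : ℂ) ≠ 0 := by exact_mod_cast hW0.ne'
  set F : ℂ → ℂ := fun z => f z / W with hF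
  set H' := H.comp (Polynomial.C (Polynomial.C (W : ℂ)) * Polynomial.X) with hH'
  have hFan : AnalyticOnNhd ℂ F U := fun z hz => (hf z hz).div_const
  have hcoef : ∀ j, (H'.coeff j).natDegree ≤ A := by
    intro j
    rw [hH', Polynomial.comp_C_mul_X_coeff, ← Polynomial.C_pow]
    exact (Polynomial.natDegree_mul_C_le _ _).trans (hA j)
  have hFn : ∀ z, ‖F z‖ = ‖f z‖ / W := by
    intro z
    rw [hF]
    simp only
    rw [norm_div, Complex.norm_real, Real.norm_eq_abs, abs_of_pos hW0]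
  have hFlt : ∀ z ∈ closedBall (0 : ℂ) r₀, ‖F z‖ < 1 := by
    intro z hz
    rw [hFn, div_lt_one hW0]
    exact hW z hz
  have hlog0 : 0 ≤ Real.log (R / r₀) := Real.log_nonneg (by rw [le_div_iff₀ hr₀]; linarith)
  have havg : circleAverage (fun z => log⁺ ‖F z‖) 0 R ≤ A * Real.log (R / r₀) := by
    refine avg_posLog_le hR0.le ?_ (hFlt 0 (by simp [hr₀.le])).le ?_
    · exact hFan.continuousOn.mono (sphere_subset_closedBall.trans hRU)
    · intro w hw1
      refine jensen_le (H := H') hr₀ hR hU hRU hFan ?_ hcoef ?_ ?_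
      · intro z hz
        rw [hH', (comp_ne (H := H) (W : ℂ) (F z) z).2]
        have : (W : ℂ) * F z = f z := by
          rw [hF]
          simp only
          field_simp
        rw [this]
        exact hH z hz
      · rw [hH', (comp_ne (H := H) (W : ℂ) w 0).1]
        refine hw _ ?_
        rw [norm_mul, hw1, mul_one, Complex.norm_real, Real.norm_eq_abs, abs_of_pos hW0]
      · intro z hz h
        have := hFlt z hz
        rw [h, hw1] at this
        exact lt_irrefl _ this
  have h1 := le_of_avg hs (hFan.mono hRU) havg (by positivity)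
  rw [hFn, div_le_iff₀ hW0, mul_comm] at h1
  exact h1

theorem finite_bad {H : Polynomial (Polynomial ℂ)} (hH : H ≠ 0) : {w : ℂ | H.eval (Polynomial.C w) = 0}.Finite := by
  -- some z with H(z, .) ≠ 0
  obtain ⟨j, hj⟩ : ∃ j, H.coeff j ≠ 0 := by
    by_contra h
    push Not at h
    exact hH (Polynomial.ext (by simpa using h))
  obtain ⟨z, hz⟩ : ∃ z, (H.coeff j).eval z ≠ 0 := by
    by_contra h
    push Not at h
    exact hj (Polynomial.funext (by simpa using h))
  have hp : H.map (Polynomial.evalRingHom z) ≠ 0 := by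
    intro h
    have := congrArg (fun q => q.coeff j) h
    simp only [Polynomial.coeff_map, Polynomial.coe_evalRingHom, Polynomial.coeff_zero] at this
    exact hz this
  refine (Polynomial.finite_setOfPred_isRoot hp).subset ?_
  intro w hw
  have h1 : (H.map (Polynomial.evalRingHom z)).eval w = (H.eval (Polynomial.C w)).eval z := by
    rw [Polynomial.eval_map]
    have := Polynomial.eval₂_hom (p := H) (Polynomial.evalRingHom z) (Polynomial.C w)
    simpa using this
  rw [Set.mem_ofPred_eq, Polynomial.IsRoot.def, h1, hw, Polynomial.eval_zero]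

/-- DOUBLING INEQUALITY for algebraic functions, centre 0 -/
theorem dbl0 {f : ℂ → ℂ} {H : Polynomial (Polynomial ℂ)} {A : ℕ} {R r₀ M : ℝ} (hr₀ : 0 < r₀) (hR : r₀ ≤ R)
    {U : Set ℂ} (hU : IsOpen U) (hRU : closedBall (0 : ℂ) R ⊆ U) (hf : AnalyticOnNhd ℂ f U)
    (hH0 : H ≠ 0) (hH : ∀ z ∈ U, H.evalEval z (f z) = 0) (hA : ∀ j, (H.coeff j).natDegree ≤ A)
    (hM : ∀ z ∈ closedBall (0 : ℂ) r₀, ‖f z‖ ≤ M) {s : ℂ} (hs : s ∈ ball (0 : ℂ) R) :
    ‖f s‖ ≤ M * Real.exp ((R + ‖s‖) / (R - ‖s‖) * (A * Real.log (R / r₀))) := by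
  set E := Real.exp ((R + ‖s‖) / (R - ‖s‖) * (A * Real.log (R / r₀))) with hE
  have hE0 : 0 < E := Real.exp_pos _
  have hfin : ((fun w : ℂ => ‖w‖) '' {w : ℂ | H.eval (Polynomial.C w) = 0}).Finite := (finite_bad hH0).image _
  refine le_of_forall_pos_lt_add ?_
  intro ε hε
  -- W in (M, M + ε/E) not bad
  obtain ⟨W, hW, hWb⟩ : ∃ W ∈ Ioo M (M + ε / E), W ∉ ((fun w : ℂ => ‖w‖) '' {w : ℂ | H.eval (Polynomial.C w) = 0}) :=
    (Ioo_infinite (by linarith [div_pos hε hE0])).exists_notMem_finite hfin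
  have h1 := dblW (W := W) hr₀ hR hU hRU hf hH hA (fun z hz => lt_of_le_of_lt (hM z hz) hW.1) (by
    intro w hw h
    exact hWb ⟨w, h, hw⟩) hs
  refine lt_of_le_of_lt h1 ?_
  have h2 : W * E < (M + ε / E) * E := mul_lt_mul_of_pos_right hW.2 hE0
  have h3 : (M + ε / E) * E = M * E + ε := by field_simp
  rw [h3] at h2
  exact h2

end Pool.Agent.Helper85.AR
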