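import Mathlib

/-! AR (Remez for algebraic leaves), step 1: the Poisson-Jensen inequality, and the average of log^+ |f| for functions
which take most values at most A times. -/

set_option autoImplicit false

namespace Pool.Agent.Helper85.AR

open Complex Metric Real MeasureTheory MeromorphicOn Set Filter Function
open scoped ComplexConjugate

/-- Poisson average of log|z - u|, pole inside. -/
theorem le_average_log_sub {R : ℝ} {s u : ℂ} (hs : s ∈ ball (0 : ℂ) R) (hu : u ∈ ball (0 : ℂ) R) (hsu : s ≠ u) :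
    Real.log ‖s - u‖ ≤ circleAverage ((re ∘ herglotzRieszKernel 0 s) * (fun z => Real.log ‖z - u‖)) 0 R := by
  have hR : 0 < R := pos_of_mem_ball hs
  rw [mem_ball_zero_iff] at hs hu
  have hRC : (R : ℂ) ≠ 0 := by exact_mod_cast hR.ne'
  set h : ℂ → ℂ := fun z => (R ^ 2 - conj u * z) / R with hh
  have hne : ∀ z ∈ closedBall (0 : ℂ) |R|, h z ≠ 0 := by
    intro z hz
    rw [abs_of_pos hR, mem_closedBall_zero_iff] at hz
    rw [hh]
    simp only
    refine div_ne_zero ?_ hRC
    intro h0
    have h1 : ((R : ℂ) ^ 2) = conj u * z := by linear_combination h0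
    have h2 : R ^ 2 = ‖u‖ * ‖z‖ := by
      have := congrArg norm h1
      rw [norm_pow, norm_mul, RCLike.norm_conj, Complex.norm_real, Real.norm_eq_abs, abs_of_pos hR] at this
      exact this
    nlinarith [norm_nonneg u, norm_nonneg z]
  have han : AnalyticOnNhd ℂ h (closedBall (0 : ℂ) |R|) := by
    intro z _
    rw [hh]
    fun_prop (disch := exact hRC)
  have hharm : InnerProductSpace.HarmonicOnNhd (fun z => Real.log ‖h z‖) (closedBall (0 : ℂ) R) := by
    intro z hz
    have hz' : z ∈ closedBall (0 : ℂ) |R| := by rw [abs_of_pos hR]; exact hz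
    exact (han z hz').harmonicAt_log_norm (hne z hz')
  have h1 := hharm.circleAverage_re_herglotzRieszKernel_smul (w := s) (by rw [mem_ball_zero_iff]; exact hs)
  have h2 : circleAverage ((re ∘ herglotzRieszKernel 0 s) * (fun z => Real.log ‖z - u‖)) 0 R
      = circleAverage ((re ∘ herglotzRieszKernel 0 s) • (fun z => Real.log ‖h z‖)) 0 R := by
    refine circleAverage_congr_sphere ?_
    intro z hz
    rw [abs_of_pos hR] at hz
    have hz' : ‖z‖ = R := by simpa using hz
    simp only [Pi.mul_apply, Pi.smul_apply', smul_eq_mul]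
    congr 2
    have h3 := norm_canonicalFactor_eval_circle_eq_one (R := R) (w := u) (z := z) (by rw [mem_ball_zero_iff]; exact hu) hz
    rw [canonicalFactor_apply] at h3
    have hzu : z - u ≠ 0 := by
      intro h0
      have : z = u := by linear_combination h0
      rw [this] at hz'
      linarith
    have hzu' : ‖z - u‖ ≠ 0 := norm_ne_zero_iff.mpr hzu
    rw [hh]
    simp only
    rw [norm_div, norm_mul] at h3
    rw [norm_div]
    have hRn : ‖(R : ℂ)‖ ≠ 0 := norm_ne_zero_iff.mpr hRC
    rw [div_eq_one_iff_eq (mul_ne_zero hRn hzu')] at h3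
    rw [h3, mul_comm, mul_div_assoc, div_self hRn, mul_one]
  rw [h2, h1]
  have hpos : 0 < ‖s - u‖ := norm_pos_iff.mpr (sub_ne_zero.mpr hsu)
  refine Real.log_le_log hpos ?_
  rw [hh]
  simp only
  rw [norm_div, le_div_iff₀ (norm_pos_iff.mpr hRC), Complex.norm_real, Real.norm_eq_abs, abs_of_pos hR]
  refine abs_le_of_sq_le_sq' ?_ (norm_nonneg _) |>.2
  have e1 : ∀ w : ℂ, ‖w‖ ^ 2 = w.re ^ 2 + w.im ^ 2 := by
    intro w
    rw [← Complex.normSq_eq_norm_sq, Complex.normSq_apply]
    ring
  have hs2 : s.re ^ 2 + s.im ^ 2 ≤ R ^ 2 := by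
    rw [← e1]
    exact pow_le_pow_left₀ (norm_nonneg _) hs.le 2
  have hu2 : u.re ^ 2 + u.im ^ 2 ≤ R ^ 2 := by
    rw [← e1]
    exact pow_le_pow_left₀ (norm_nonneg _) hu.le 2
  rw [mul_pow, e1, e1]
  have e2 : ((R : ℂ) ^ 2 - conj u * s).re = R ^ 2 - (u.re * s.re + u.im * s.im) := by
    have : ((R : ℂ) ^ 2).re = R ^ 2 := by rw [← Complex.ofReal_pow, Complex.ofReal_re]
    rw [Complex.sub_re, this, Complex.mul_re, Complex.conj_re, Complex.conj_im]
    ring
  have e3 : ((R : ℂ) ^ 2 - conj u * s).im = - (u.re * s.im - u.im * s.re) := by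
    have : ((R : ℂ) ^ 2).im = 0 := by rw [← Complex.ofReal_pow, Complex.ofReal_im]
    rw [Complex.sub_im, this, Complex.mul_im, Complex.conj_re, Complex.conj_im]
    ring
  rw [e2, e3, Complex.sub_re, Complex.sub_im]
  nlinarith [mul_nonneg (sub_nonneg.mpr hs2) (sub_nonneg.mpr hu2)]


/-- average over the boundary, kernel times log -/
noncomputable def Pk (s : ℂ) : ℂ → ℝ := re ∘ herglotzRieszKernel 0 s

theorem Pk_cont {R : ℝ} {s : ℂ} (hs : s ∈ ball (0 : ℂ) R) : ContinuousOn (Pk s) (sphere (0 : ℂ) |R|) :=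
  Complex.continuous_re.comp_continuousOn (continuousOn_herglotzRieszKernel_sphere hs)

/-- POISSON-JENSEN INEQUALITY -/
theorem pj {R : ℝ} {s : ℂ} {f : ℂ → ℂ} (hs : s ∈ ball (0 : ℂ) R) (hf : AnalyticOnNhd ℂ f (closedBall (0 : ℂ) R))
    (hs0 : f s ≠ 0) :
    Real.log ‖f s‖ ≤ circleAverage (Pk s * (fun z => Real.log ‖f z‖)) 0 R := by
  have hR : 0 < R := pos_of_mem_ball hs
  have hsC : s ∈ closedBall (0 : ℂ) R := ball_subset_closedBall hs
  have hsub : sphere (0 : ℂ) |R| ⊆ closedBall (0 : ℂ) R := by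
    rw [abs_of_pos hR]
    exact sphere_subset_closedBall
  have h₁f : MeromorphicOn f (closedBall (0 : ℂ) R) := hf.meromorphicOn
  have hord : ∀ u : (closedBall (0 : ℂ) R), meromorphicOrderAt f u ≠ ⊤ := by
    rw [← h₁f.exists_meromorphicOrderAt_ne_top_iff_forall
      ⟨nonempty_closedBall.mpr hR.le, (convex_closedBall (0 : ℂ) R).isPreconnected⟩]
    refine ⟨⟨s, hsC⟩, ?_⟩
    simp only
    rw [(hf s hsC).meromorphicOrderAt_eq, (hf s hsC).analyticOrderAt_eq_zero.mpr hs0]
    simp
  have h₃f := (divisor f (closedBall (0 : ℂ) R)).finiteSupport (isCompact_closedBall (0 : ℂ) R)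
  obtain ⟨g, h₁g, h₂g, h₃g⟩ := h₁f.extract_zeros_poles hord h₃f
  have hlog := extract_zeros_poles_log h₂g h₃g
  set D := divisor f (closedBall (0 : ℂ) R) with hD
  set T := h₃f.toFinset with hT
  have hsum : (∑ᶠ u, (D u * Real.log ‖· - u‖)) = ∑ u ∈ T, (fun z : ℂ => (D u : ℝ) * Real.log ‖z - u‖) := by
    rw [finsum_eq_sum_of_support_subset]
    intro u
    contrapose
    intro hu
    have : D u = 0 := by
      by_contra h0
      exact hu (by simpa [hT] using h0)
    simp only [Function.mem_support, ne_eq, not_not]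
    funext z
    simp [this]
  -- value at s
  have h0 : AccPt s (𝓟 (closedBall (0 : ℂ) R)) := by
    apply accPt_iff_frequently_nhdsNE.mpr
    apply compl_notMem
    apply mem_nhdsWithin.mpr
    refine ⟨ball (0 : ℂ) R, isOpen_ball, hs, ?_⟩
    intro z hz
    simpa using ball_subset_closedBall hz.1
  have hval := MeromorphicOn.log_norm_meromorphicTrailingCoeffAt_extract_zeros_poles h₃f hsC h0
        (h₁f s hsC) (h₁g s hsC) (h₂g ⟨s, hsC⟩) h₃g
  rw [(hf s hsC).meromorphicTrailingCoeffAt_of_ne_zero hs0] at hval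
  have hsum2 : (∑ᶠ u, (D u : ℝ) * Real.log ‖s - u‖) = ∑ u ∈ T, (D u : ℝ) * Real.log ‖s - u‖ := by
    rw [finsum_eq_sum_of_support_subset]
    intro u
    contrapose
    intro hu
    have : D u = 0 := by
      by_contra h0
      exact hu (by simpa [hT] using h0)
    simp [this]
  rw [hsum2] at hval
  rw [hval]
  -- the average
  have hcg : circleAverage (Pk s * (fun z => Real.log ‖f z‖)) 0 R
      = circleAverage (∑ u ∈ T, ((D u : ℝ) • (Pk s * (fun z : ℂ => Real.log ‖z - u‖))) + Pk s * (fun z => Real.log ‖g z‖)) 0 R := by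
    refine circleAverage_congr_codiscreteWithin ?_ hR.ne'
    have h5 := codiscreteWithin_mono hsub hlog
    rw [hsum] at h5
    filter_upwards [h5] with z hz
    simp only [Pi.mul_apply, Pi.add_apply, Finset.sum_apply, Pi.smul_apply, smul_eq_mul]
    simp only [Pi.add_apply, Finset.sum_apply] at hz
    rw [hz, mul_add, Finset.mul_sum]
    congr 1
    refine Finset.sum_congr rfl fun u _ => ?_
    ring
  have hint : ∀ u : ℂ, CircleIntegrable (Pk s * (fun z : ℂ => Real.log ‖z - u‖)) 0 R := fun u =>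
    (circleIntegrable_log_norm_sub_const R).continuousOn_mul (Pk_cont hs)
  have hgi : CircleIntegrable (Pk s * (fun z => Real.log ‖g z‖)) 0 R := by
    refine CircleIntegrable.continuousOn_mul ?_ (Pk_cont hs)
    exact (h₁g.mono hsub).meromorphicOn.circleIntegrable_log_norm
  rw [hcg, circleAverage_add (CircleIntegrable.sum _ fun u _ => (hint u).const_smul) hgi,
    circleAverage_sum fun u _ => (hint u).const_smul]
  have hg : circleAverage (Pk s * (fun z => Real.log ‖g z‖)) 0 R = Real.log ‖g s‖ := by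
    have : InnerProductSpace.HarmonicOnNhd (fun z => Real.log ‖g z‖) (closedBall (0 : ℂ) R) := by
      intro z hz
      exact (h₁g z hz).harmonicAt_log_norm (h₂g ⟨z, hz⟩)
    exact this.circleAverage_re_herglotzRieszKernel_smul hs
  rw [hg]
  refine add_le_add ?_ le_rfl
  refine Finset.sum_le_sum fun u hu => ?_
  rw [circleAverage_smul, smul_eq_mul]
  have hDu : D u ≠ 0 := by simpa [hT] using hu
  have huC : u ∈ closedBall (0 : ℂ) R := D.supportWithinDomain hDu
  have hDn : 0 ≤ D u := by
    exact hf.divisor_nonneg u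
  have hsu : s ≠ u := by
    intro h
    apply hDu
    rw [hD, hf.divisor_apply huC, ← h, (hf s hsC).analyticOrderAt_eq_zero.mpr hs0]
    simp
  refine mul_le_mul_of_nonneg_left ?_ (by exact_mod_cast hDn)
  by_cases hub : u ∈ ball (0 : ℂ) R
  · exact le_average_log_sub hs hub hsu
  · have hus : u ∈ sphere (0 : ℂ) R := by
      rw [mem_sphere_zero_iff_norm]
      rw [mem_ball_zero_iff, not_lt] at hub
      rw [mem_closedBall_zero_iff] at huC
      exact le_antisymm huC hub
    exact (circleAverage_re_herglotzRieszKernel_mul_log hus hs).ge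

end Pool.Agent.Helper85.AR
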