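import Pool.Agent.Helper85.AR.Dbl

/-! AR (Remez for algebraic leaves), step 4: the Remez inequality for functions f on [0,1] which are analytic on the
eta-neighbourhood of [0,1] and satisfy H(z, f z) = 0 with H ≠ 0 of degree ≤ A in z. -/

set_option autoImplicit false

namespace Pool.Agent.Helper85.AR

open Complex Metric Real Set Filter Function Topology

/-- f is analytic on the eta-neighbourhood of [0,1] and algebraic of z-degree at most A. -/
def AlgF (A : ℕ) (η : ℝ) (f : ℂ → ℂ) : Prop :=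
  ∃ U : Set ℂ, IsOpen U ∧ (∀ t ∈ Icc (0 : ℝ) 1, closedBall (t : ℂ) η ⊆ U) ∧ DifferentiableOn ℂ f U ∧
    ∃ H : Polynomial (Polynomial ℂ), H ≠ 0 ∧ (∀ j, (H.coeff j).natDegree ≤ A) ∧ ∀ z ∈ U, H.evalEval z (f z) = 0

/-- translation of the annihilator -/
theorem transl {H : Polynomial (Polynomial ℂ)} {A : ℕ} (hH : H ≠ 0) (hA : ∀ j, (H.coeff j).natDegree ≤ A) (c : ℂ) :
    ∃ H' : Polynomial (Polynomial ℂ), H' ≠ 0 ∧ (∀ j, (H'.coeff j).natDegree ≤ A) ∧
      ∀ z w, H'.evalEval z w = H.evalEval (z + c) w := by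
  refine ⟨H.map (Polynomial.compRingHom (Polynomial.X + Polynomial.C c)), ?_, ?_, ?_⟩
  · intro h
    apply hH
    refine Polynomial.ext fun j => ?_
    have h1 := congrArg (fun q => (q.coeff j).comp (Polynomial.X - Polynomial.C c)) h
    simp only [Polynomial.coeff_map, Polynomial.coe_compRingHom_apply, Polynomial.coeff_zero, Polynomial.zero_comp] at h1
    rw [Polynomial.comp_assoc] at h1
    simpa using h1
  · intro j
    rw [Polynomial.coeff_map, Polynomial.coe_compRingHom_apply]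
    refine Polynomial.natDegree_comp_le.trans ?_
    rw [Polynomial.natDegree_X_add_C, mul_one]
    exact hA j
  · intro z w
    rw [evalEval_sum]
    have hnd : (H.map (Polynomial.compRingHom (Polynomial.X + Polynomial.C c))).natDegree ≤ H.natDegree :=
      Polynomial.natDegree_map_le
    unfold Polynomial.evalEval
    rw [Polynomial.eval_eq_sum_range' (n := H.natDegree + 1) (p := H) (Nat.lt_succ_self _), Polynomial.eval_finsetSum]
    rw [← Finset.sum_subset (Finset.range_subset_range.mpr (Nat.succ_le_succ hnd))]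
    · refine Finset.sum_congr rfl fun j _ => ?_
      rw [Polynomial.coeff_map, Polynomial.coe_compRingHom_apply, Polynomial.eval_comp, Polynomial.eval_add,
        Polynomial.eval_X, Polynomial.eval_C, Polynomial.eval_mul, Polynomial.eval_pow, Polynomial.eval_C]
    · intro j _ hj
      have h1 : (H.map (Polynomial.compRingHom (Polynomial.X + Polynomial.C c))).coeff j = 0 := by
        refine Polynomial.coeff_eq_zero_of_natDegree_lt ?_
        rw [Finset.mem_range, not_lt] at hj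
        omega
      rw [Polynomial.coeff_map, Polynomial.coe_compRingHom_apply] at h1
      have h2 : H.coeff j = 0 := by
        have h3 := congrArg (fun q => q.comp (Polynomial.X - Polynomial.C c)) h1
        simp only [Polynomial.zero_comp] at h3
        rw [Polynomial.comp_assoc] at h3
        simpa using h3
      rw [h2]
      simp

/-- DOUBLING, arbitrary centre: from radius ρ to radius 8ρ inside radius 32ρ -/
theorem dbl {f : ℂ → ℂ} {H : Polynomial (Polynomial ℂ)} {A : ℕ} {ρ M : ℝ} {c : ℂ} (hρ : 0 < ρ)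
    {U : Set ℂ} (hU : IsOpen U) (hRU : closedBall c (32 * ρ) ⊆ U) (hf : DifferentiableOn ℂ f U)
    (hH0 : H ≠ 0) (hH : ∀ z ∈ U, H.evalEval z (f z) = 0) (hA : ∀ j, (H.coeff j).natDegree ≤ A)
    (hM : ∀ z ∈ closedBall c ρ, ‖f z‖ ≤ M) {s : ℂ} (hs : s ∈ closedBall c (8 * ρ)) :
    ‖f s‖ ≤ M * Real.exp (2 * (A * Real.log 32)) := by
  obtain ⟨H', hH'0, hH'A, hH'⟩ := transl hH0 hA c
  have hcont : Continuous (fun z : ℂ => z + c) := by fun_prop
  have hfan : AnalyticOnNhd ℂ f U := hf.analyticOnNhd hU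
  set g : ℂ → ℂ := fun z => f (z + c) with hg
  set U' : Set ℂ := (fun z : ℂ => z + c) ⁻¹' U with hU'
  have hgan : AnalyticOnNhd ℂ g U' := by
    intro z hz
    have h1 : AnalyticAt ℂ (fun z : ℂ => z + c) z := by fun_prop
    exact AnalyticAt.comp (g := f) (f := fun z : ℂ => z + c) (hfan (z + c) hz) h1
  have hmem : ∀ (r : ℝ) (z : ℂ), z ∈ closedBall (0 : ℂ) r → z + c ∈ closedBall c r := by
    intro r z hz
    rw [mem_closedBall_iff_norm, sub_zero] at hz
    rw [mem_closedBall_iff_norm, add_sub_cancel_right]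
    exact hz
  have hss : ‖s - c‖ ≤ 8 * ρ := by rwa [mem_closedBall_iff_norm] at hs
  have h0 := norm_nonneg (s - c)
  have h1 := dbl0 (f := g) (H := H') (A := A) (R := 32 * ρ) (r₀ := ρ) (M := M) hρ (by linarith) (U := U')
    (hU.preimage hcont) (fun z hz => hRU (hmem _ z hz)) hgan hH'0 (fun z hz => by rw [hH']; exact hH _ hz) hH'A
    (fun z hz => hM _ (hmem _ z hz)) (s := s - c) (by rw [mem_ball_zero_iff]; linarith)
  have h2 : g (s - c) = f s := by
    rw [hg]
    simp only [sub_add_cancel]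
  rw [h2] at h1
  have hM0 : 0 ≤ M := (norm_nonneg _).trans (hM c (mem_closedBall_self hρ.le))
  refine h1.trans (mul_le_mul_of_nonneg_left ?_ hM0)
  refine Real.exp_le_exp.mpr ?_
  have h3 : 32 * ρ / ρ = 32 := by field_simp
  rw [h3]
  have h4 : (32 * ρ + ‖s - c‖) / (32 * ρ - ‖s - c‖) ≤ 2 := by
    rw [div_le_iff₀ (by linarith)]
    linarith
  refine mul_le_mul_of_nonneg_right h4 ?_
  have : 0 ≤ Real.log 32 := Real.log_nonneg (by norm_num)
  positivity

/-- a function with many zeros near c is small near c -/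
theorem zeros_bound {ι : Type*} [DecidableEq ι] {v : ι → ℂ} {c : ℂ} {ρ R : ℝ} (hρ : 0 < ρ) (hR : ρ < R) {U : Set ℂ}
    (hU : IsOpen U) (hRU : closedBall c R ⊆ U) (hv : Function.Injective v) (s : Finset ι)
    (hvs : ∀ i ∈ s, v i ∈ closedBall c ρ) :
    ∀ (F : ℂ → ℂ), DifferentiableOn ℂ F U → (∀ i ∈ s, F (v i) = 0) → ∀ B : ℝ, (∀ z ∈ sphere c R, ‖F z‖ ≤ B) →
      ∀ z ∈ closedBall c ρ, ‖F z‖ ≤ B * (2 * ρ / (R - ρ)) ^ s.card := by
  have hR0 : 0 < R := hρ.trans hR
  have hRρ : 0 < R - ρ := by linarith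
  induction s using Finset.induction_on with
  | empty =>
    intro F hF _ B hB z hz
    rw [Finset.card_empty, pow_zero, mul_one]
    have hd : DiffContOnCl ℂ F (ball c R) := by
      refine DifferentiableOn.diffContOnCl ?_
      rw [closure_ball c hR0.ne']
      exact hF.mono hRU
    refine Complex.norm_le_of_forall_mem_frontier_norm_le isBounded_ball hd ?_ ?_
    · intro w hw
      rw [frontier_ball c hR0.ne'] at hw
      exact hB w hw
    · rw [closure_ball c hR0.ne']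
      exact closedBall_subset_closedBall hR.le hz
  | insert a s ha ih =>
    intro F hF hF0 B hB z hz
    have hva : v a ∈ closedBall c ρ := hvs a (Finset.mem_insert_self a s)
    have hvaU : v a ∈ U := hRU (closedBall_subset_closedBall hR.le hva)
    have hFa : F (v a) = 0 := hF0 a (Finset.mem_insert_self a s)
    set G := dslope F (v a) with hG
    have hGd : DifferentiableOn ℂ G U := (differentiableOn_dslope (hU.mem_nhds hvaU)).mpr hF
    have hFG : ∀ w, F w = (w - v a) * G w := by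
      intro w
      have := sub_smul_dslope F (v a) w
      rw [hFa, sub_zero, smul_eq_mul] at this
      exact this.symm
    have hG0 : ∀ i ∈ s, G (v i) = 0 := by
      intro i hi
      have h1 := hF0 i (Finset.mem_insert_of_mem hi)
      rw [hFG] at h1
      rcases mul_eq_zero.mp h1 with h | h
      · exfalso
        have h2 : v i = v a := sub_eq_zero.mp h
        have h3 := hv h2
        rw [h3] at hi
        exact ha hi
      · exact h
    have hva' : ‖v a - c‖ ≤ ρ := by rwa [mem_closedBall_iff_norm] at hva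
    have hGB : ∀ w ∈ sphere c R, ‖G w‖ ≤ B / (R - ρ) := by
      intro w hw
      have h1 := hB w hw
      have h2 : R - ρ ≤ ‖w - v a‖ := by
        rw [mem_sphere_iff_norm] at hw
        have h3 : ‖w - c‖ ≤ ‖w - v a‖ + ‖v a - c‖ := by
          have := norm_add_le (w - v a) (v a - c)
          rwa [sub_add_sub_cancel] at this
        linarith
      rw [hFG, norm_mul] at h1
      rw [le_div_iff₀ hRρ]
      calc ‖G w‖ * (R - ρ) ≤ ‖G w‖ * ‖w - v a‖ := mul_le_mul_of_nonneg_left h2 (norm_nonneg _)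
        _ = ‖w - v a‖ * ‖G w‖ := mul_comm _ _
        _ ≤ B := h1
    have h1 := ih (fun i hi => hvs i (Finset.mem_insert_of_mem hi)) G hGd hG0 _ hGB z hz
    rw [hFG, norm_mul, Finset.card_insert_of_notMem ha, pow_succ]
    have h2 : ‖z - v a‖ ≤ 2 * ρ := by
      rw [mem_closedBall_iff_norm] at hz
      have h3 : ‖z - v a‖ ≤ ‖z - c‖ + ‖c - v a‖ := by
        have := norm_add_le (z - c) (c - v a)
        rwa [sub_add_sub_cancel] at this
      rw [norm_sub_rev c] at h3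
      linarith
    calc ‖z - v a‖ * ‖G z‖ ≤ (2 * ρ) * (B / (R - ρ) * (2 * ρ / (R - ρ)) ^ s.card) :=
          mul_le_mul h2 h1 (norm_nonneg _) (by linarith)
      _ = B * ((2 * ρ / (R - ρ)) ^ s.card * (2 * ρ / (R - ρ))) := by ring


/-- constant of doubling -/
noncomputable def Kd (A : ℕ) : ℝ := Real.exp (2 * (A * Real.log 32))

theorem Kd_one (A : ℕ) : 1 ≤ Kd A := by
  unfold Kd
  rw [← Real.exp_zero]
  refine Real.exp_le_exp.mpr ?_
  have : 0 ≤ Real.log 32 := Real.log_nonneg (by norm_num)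
  positivity

/-- bound for the Lagrange interpolation polynomial -/
theorem interp_le {ι : Type*} [DecidableEq ι] {v : ι → ℂ} {c : ℂ} {ρ δ ε r : ℝ} (hδ : 0 < δ) {n : ℕ} (s : Finset ι)
    (hs : s.card = n + 1) (hvs : ∀ i ∈ s, v i ∈ closedBall c ρ) (hsep : ∀ i ∈ s, ∀ j ∈ s, i ≠ j → δ ≤ ‖v i - v j‖)
    {g : ι → ℂ} (hg : ∀ i ∈ s, ‖g i‖ ≤ ε) (hε : 0 ≤ ε) {z : ℂ} (hz : z ∈ closedBall c r) :
    ‖(Lagrange.interpolate s v g).eval z‖ ≤ (n + 1) * ((r + ρ) / δ) ^ n * ε := by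
  rw [Lagrange.interpolate_apply, Polynomial.eval_finsetSum]
  refine (norm_sum_le _ _).trans ?_
  have hterm : ∀ i ∈ s, ‖(Polynomial.C (g i) * Lagrange.basis s v i).eval z‖ ≤ ((r + ρ) / δ) ^ n * ε := by
    intro i hi
    rw [Polynomial.eval_mul, Polynomial.eval_C, norm_mul, mul_comm]
    refine mul_le_mul ?_ (hg i hi) (norm_nonneg _) ?_
    · unfold Lagrange.basis
      rw [Polynomial.eval_prod, norm_prod]
      have hc : (s.erase i).card = n := by rw [Finset.card_erase_of_mem hi, hs]; rfl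
      rw [← hc, ← Finset.prod_const]
      refine Finset.prod_le_prod (fun j _ => norm_nonneg _) fun j hj => ?_
      have hj' := Finset.mem_erase.mp hj
      unfold Lagrange.basisDivisor
      rw [Polynomial.eval_mul, Polynomial.eval_C, Polynomial.eval_sub, Polynomial.eval_X, Polynomial.eval_C, norm_mul,
        norm_inv, mul_comm, ← div_eq_mul_inv]
      have h1 : δ ≤ ‖v i - v j‖ := hsep i hi j hj'.2 (Ne.symm hj'.1)
      have h2 : ‖z - v j‖ ≤ r + ρ := by
        have h3 := hvs j hj'.2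
        rw [mem_closedBall_iff_norm] at hz h3
        have h4 : ‖z - v j‖ ≤ ‖z - c‖ + ‖c - v j‖ := by
          have := norm_add_le (z - c) (c - v j)
          rwa [sub_add_sub_cancel] at this
        rw [norm_sub_rev c] at h4
        linarith
      have h5 : 0 ≤ r + ρ := (norm_nonneg _).trans h2
      exact div_le_div₀ h5 h2 hδ h1
    · have h5 : 0 ≤ (r + ρ) := by
        have h3 := hvs i hi
        rw [mem_closedBall_iff_norm] at hz h3
        have := norm_nonneg (z - c)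
        have := norm_nonneg (v i - c)
        linarith
      positivity
  refine (Finset.sum_le_sum hterm).trans ?_
  rw [Finset.sum_const, hs, nsmul_eq_mul]
  push_cast
  linarith

/-- LOCAL REMEZ -/
theorem locR {f : ℂ → ℂ} {H : Polynomial (Polynomial ℂ)} {A : ℕ} {ρ δ ε : ℝ} {c : ℂ} (hρ : 0 < ρ)
    {U : Set ℂ} (hU : IsOpen U) (hRU : closedBall c (32 * ρ) ⊆ U) (hf : DifferentiableOn ℂ f U)
    (hH0 : H ≠ 0) (hH : ∀ z ∈ U, H.evalEval z (f z) = 0) (hA : ∀ j, (H.coeff j).natDegree ≤ A)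
    {n : ℕ} (hn : (2 / 7 : ℝ) ^ (n + 1) * Kd A ≤ 1 / 4)
    {ι : Type*} [DecidableEq ι] {v : ι → ℂ} (hv : Function.Injective v) (s : Finset ι)
    (hs : s.card = n + 1) (hvs : ∀ i ∈ s, v i ∈ closedBall c ρ) (hδ : 0 < δ)
    (hsep : ∀ i ∈ s, ∀ j ∈ s, i ≠ j → δ ≤ ‖v i - v j‖) (hε : ∀ i ∈ s, ‖f (v i)‖ ≤ ε) (hε0 : 0 ≤ ε) {z : ℂ}
    (hz : z ∈ closedBall c ρ) : ‖f z‖ ≤ 4 * ((n + 1) * (9 * ρ / δ) ^ n * ε) := by
  obtain ⟨z₁, hz₁, hmax⟩ := (isCompact_closedBall c ρ).exists_isMaxOn ⟨c, mem_closedBall_self hρ.le⟩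
    ((hf.continuousOn.mono ((closedBall_subset_closedBall (by linarith)).trans hRU)).norm)
  set M₁ := ‖f z₁‖ with hM₁
  have hM : ∀ z ∈ closedBall c ρ, ‖f z‖ ≤ M₁ := fun z hz => hmax hz
  refine (hM z hz).trans ?_
  set L := Lagrange.interpolate s v (fun i => f (v i)) with hL
  set Lm := (n + 1) * ((8 * ρ + ρ) / δ) ^ n * ε with hLm
  have hLle : ∀ w ∈ closedBall c (8 * ρ), ‖L.eval w‖ ≤ Lm := fun w hw => interp_le hδ s hs hvs hsep hε hε0 hw
  have hFd : DifferentiableOn ℂ (fun w => f w - L.eval w) U := hf.sub L.differentiable.differentiableOn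
  have hB : ∀ w ∈ sphere c (8 * ρ), ‖f w - L.eval w‖ ≤ M₁ * Kd A + Lm := by
    intro w hw
    have hw' := sphere_subset_closedBall hw
    refine (norm_sub_le _ _).trans (add_le_add ?_ (hLle w hw'))
    exact dbl hρ hU hRU hf hH0 hH hA hM hw'
  have h1 := zeros_bound (v := v) (c := c) (ρ := ρ) (R := 8 * ρ) hρ (by linarith) hU
    ((closedBall_subset_closedBall (by linarith)).trans hRU) hv s hvs (fun w => f w - L.eval w) hFd (by
      intro i hi
      rw [hL, Lagrange.eval_interpolate_at_node _ (hv.injOn) hi, sub_self]) _ hB z₁ hz₁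
  have h2 : 2 * ρ / (8 * ρ - ρ) = 2 / 7 := by
    rw [div_eq_div_iff (by linarith) (by norm_num)]
    ring
  rw [h2, hs] at h1
  have h3 : M₁ ≤ ‖f z₁ - L.eval z₁‖ + ‖L.eval z₁‖ := by
    have := norm_add_le (f z₁ - L.eval z₁) (L.eval z₁)
    rwa [sub_add_cancel] at this
  have h4 := hLle z₁ (closedBall_subset_closedBall (by linarith) hz₁)
  have hM0 : 0 ≤ M₁ := norm_nonneg _
  have hLm0 : 0 ≤ Lm := (norm_nonneg _).trans h4
  have h5 : (2 / 7 : ℝ) ^ (n + 1) ≤ 1 / 4 := by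
    have := Kd_one A
    have h6 : 0 < (2 / 7 : ℝ) ^ (n + 1) := by positivity
    nlinarith
  have h7 : (M₁ * Kd A + Lm) * (2 / 7 : ℝ) ^ (n + 1) ≤ M₁ * (1 / 4) + Lm * (1 / 4) := by
    have e1 : (M₁ * Kd A + Lm) * (2 / 7 : ℝ) ^ (n + 1) = M₁ * ((2 / 7 : ℝ) ^ (n + 1) * Kd A) + Lm * (2 / 7 : ℝ) ^ (n + 1) := by
      ring
    rw [e1]
    exact add_le_add (mul_le_mul_of_nonneg_left hn hM0) (mul_le_mul_of_nonneg_left h5 hLm0)
  have h8 : M₁ ≤ 4 * Lm := by linarith
  refine h8.trans (le_of_eq ?_)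
  rw [hLm]
  have e2 : 8 * ρ + ρ = 9 * ρ := by ring
  rw [e2]

/-- CHAIN OF DISCS -/
theorem chain {f : ℂ → ℂ} {H : Polynomial (Polynomial ℂ)} {A : ℕ} {ρ M : ℝ} (hρ : 0 < ρ)
    {U : Set ℂ} (hU : IsOpen U) (hRU : ∀ t ∈ Icc (0 : ℝ) 1, closedBall (t : ℂ) (32 * ρ) ⊆ U) (hf : DifferentiableOn ℂ f U)
    (hH0 : H ≠ 0) (hH : ∀ z ∈ U, H.evalEval z (f z) = 0) (hA : ∀ j, (H.coeff j).natDegree ≤ A)
    {c : ℝ} (hc : c ∈ Icc (0 : ℝ) 1) (hM : ∀ z ∈ closedBall (c : ℂ) ρ, ‖f z‖ ≤ M) (k : ℕ) :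
    ∀ t ∈ Icc (0 : ℝ) 1, |t - c| ≤ k * ρ → ∀ z ∈ closedBall (t : ℂ) ρ, ‖f z‖ ≤ M * Kd A ^ k := by
  have hM0 : 0 ≤ M := (norm_nonneg _).trans (hM c (mem_closedBall_self hρ.le))
  induction k with
  | zero =>
    intro t _ htc z hz
    rw [Nat.cast_zero, zero_mul] at htc
    have h1 : t = c := by
      have := abs_nonpos_iff.mp htc
      linarith
    rw [h1] at hz
    rw [pow_zero, mul_one]
    exact hM z hz
  | succ k ih =>
    intro t ht htc z hz
    -- a point t' between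
    obtain ⟨t', ht', h1, h2⟩ : ∃ t' ∈ Icc (0 : ℝ) 1, |t' - c| ≤ k * ρ ∧ |t - t'| ≤ ρ := by
      push_cast at htc
      by_cases h : |t - c| ≤ ρ
      · refine ⟨c, hc, ?_, h⟩
        rw [sub_self, abs_zero]
        positivity
      · rw [not_le] at h
        rcases le_total c t with h3 | h3
        · have e1 : |t - c| = t - c := abs_of_nonneg (by linarith)
          rw [e1] at h htc
          refine ⟨t - ρ, ⟨by linarith [hc.1], by linarith [ht.2]⟩, ?_, ?_⟩
          · rw [abs_of_nonneg (by linarith)]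
            linarith
          · rw [sub_sub_cancel, abs_of_pos hρ]
        · have e1 : |t - c| = c - t := by
            rw [abs_sub_comm]
            exact abs_of_nonneg (by linarith)
          rw [e1] at h htc
          refine ⟨t + ρ, ⟨by linarith [ht.1], by linarith [hc.2]⟩, ?_, ?_⟩
          · rw [abs_sub_comm, abs_of_nonneg (by linarith)]
            linarith
          · have e2 : t - (t + ρ) = -ρ := by ring
            rw [e2, abs_neg, abs_of_pos hρ]
    have h3 := ih t' ht' h1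
    have h4 : z ∈ closedBall (t' : ℂ) (8 * ρ) := by
      rw [mem_closedBall_iff_norm] at hz ⊢
      have h5 : ‖z - (t' : ℂ)‖ ≤ ‖z - (t : ℂ)‖ + ‖(t : ℂ) - (t' : ℂ)‖ := by
        have := norm_add_le (z - (t : ℂ)) ((t : ℂ) - (t' : ℂ))
        rwa [sub_add_sub_cancel] at this
      have h6 : ‖(t : ℂ) - (t' : ℂ)‖ = |t - t'| := by
        rw [← Complex.ofReal_sub, Complex.norm_real, Real.norm_eq_abs]
      linarith
    have h5 := dbl hρ hU (hRU t' ht') hf hH0 hH hA h3 h4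
    rw [pow_succ, ← mul_assoc]
    exact h5


/-- REMEZ INEQUALITY for algebraic functions: N + 1 points with gaps ≥ δ control the η/32-neighbourhood of [0,1];
N and C depend on the degree A and on η only. -/
theorem sepR (A : ℕ) (η : ℝ) (hη : 0 < η) : ∃ (N : ℕ) (C : ℝ), 1 ≤ N ∧ 1 ≤ C ∧ ∀ f : ℂ → ℂ, AlgF A η f →
    ∀ x : Fin (N + 1) → ℝ, (∀ i, x i ∈ Icc (0 : ℝ) 1) → ∀ δ : ℝ, 0 < δ → (∀ i j, i ≠ j → δ ≤ |x i - x j|) →
      ∀ ε : ℝ, (∀ i, ‖f (x i)‖ ≤ ε) → ∀ t ∈ Icc (0 : ℝ) 1, ∀ z ∈ closedBall (t : ℂ) (η / 32),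
        ‖f z‖ ≤ C * (1 / δ) ^ N * ε := by
  classical
  set ρ := η / 32 with hρdef
  have hρ : 0 < ρ := by positivity
  have h32 : 32 * ρ = η := by rw [hρdef]; ring
  obtain ⟨n₀, hn₀⟩ : ∃ n : ℕ, (2 / 7 : ℝ) ^ n < 1 / (4 * Kd A) :=
    exists_pow_lt_of_lt_one (by have := Kd_one A; positivity) (by norm_num)
  set n := n₀ + 1 with hn
  have hnK : (2 / 7 : ℝ) ^ (n + 1) * Kd A ≤ 1 / 4 := by
    have hK := Kd_one A
    have h1 : (2 / 7 : ℝ) ^ (n + 1) ≤ (2 / 7 : ℝ) ^ n₀ :=
      pow_le_pow_of_le_one (by norm_num) (by norm_num) (by omega)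
    have h2 : (2 / 7 : ℝ) ^ (n + 1) ≤ 1 / (4 * Kd A) := h1.trans hn₀.le
    calc (2 / 7 : ℝ) ^ (n + 1) * Kd A ≤ 1 / (4 * Kd A) * Kd A := mul_le_mul_of_nonneg_right h2 (by linarith)
      _ = 1 / 4 := by field_simp
  set K₀ := ⌊1 / ρ⌋₊ + 1 with hK₀
  set k := ⌈1 / ρ⌉₊ with hk
  have hN1 : 1 ≤ K₀ * n := Nat.one_le_iff_ne_zero.mpr (Nat.mul_ne_zero (by omega) (by omega))
  refine ⟨K₀ * n, 1 + 4 * (n + 1) * (9 * ρ) ^ n * Kd A ^ k, hN1, ?_, ?_⟩
  · have hK := Kd_one A
    have : 0 ≤ 4 * ((n : ℝ) + 1) * (9 * ρ) ^ n * Kd A ^ k := by positivity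
    linarith
  intro f hf x hx δ hδ hsep ε hε t ht z hz
  obtain ⟨U, hU, hRU, hfd, H, hH0, hA, hH⟩ := hf
  have hε0 : 0 ≤ ε := (norm_nonneg _).trans (hε 0)
  -- δ ≤ 1
  have hδ1 : δ ≤ 1 := by
    have h01 : (0 : Fin (K₀ * n + 1)) ≠ Fin.last (K₀ * n) := by
      intro h
      have := congrArg Fin.val h
      simp only [Fin.val_zero, Fin.val_last] at this
      omega
    refine (hsep _ _ h01).trans ?_
    rw [abs_le]
    constructor
    · linarith [(hx 0).1, (hx (Fin.last (K₀ * n))).2]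
    · linarith [(hx 0).2, (hx (Fin.last (K₀ * n))).1]
  -- pigeonhole
  have hcell : ∀ i, ⌊x i / ρ⌋₊ ∈ Finset.range K₀ := by
    intro i
    rw [Finset.mem_range, hK₀, Nat.lt_succ_iff]
    exact Nat.floor_mono (div_le_div_of_nonneg_right (hx i).2 hρ.le)
  obtain ⟨q, _, hq⟩ := Finset.exists_lt_card_fiber_of_mul_lt_card_of_maps_to (s := (Finset.univ : Finset (Fin (K₀ * n + 1))))
    (t := Finset.range K₀) (f := fun i => ⌊x i / ρ⌋₊) (n := n) (fun i _ => hcell i) (by
      rw [Finset.card_range, Finset.card_univ, Fintype.card_fin]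
      omega)
  obtain ⟨s, hsq, hs⟩ := Finset.exists_subset_card_eq (Nat.succ_le_of_lt hq)
  have hsc : ∀ i ∈ s, ⌊x i / ρ⌋₊ = q := fun i hi => (Finset.mem_filter.mp (hsq hi)).2
  -- the centre
  set c : ℝ := q * ρ with hc
  have hsne : s.Nonempty := by
    rw [← Finset.card_pos, hs]
    omega
  have hxc : ∀ i ∈ s, c ≤ x i ∧ x i ≤ c + ρ := by
    intro i hi
    have h1 := Nat.floor_le (div_nonneg (hx i).1 hρ.le)
    have h2 := Nat.lt_floor_add_one (x i / ρ)
    rw [hsc i hi] at h1 h2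
    rw [le_div_iff₀ hρ] at h1
    rw [div_lt_iff₀ hρ] at h2
    constructor
    · exact h1
    · rw [hc]
      linarith
  have hcI : c ∈ Icc (0 : ℝ) 1 := by
    obtain ⟨i, hi⟩ := hsne
    refine ⟨by positivity, (hxc i hi).1.trans (hx i).2⟩
  have hnorm : ∀ a b : ℝ, ‖(a : ℂ) - (b : ℂ)‖ = |a - b| := by
    intro a b
    rw [← Complex.ofReal_sub, Complex.norm_real, Real.norm_eq_abs]
  have hinj : Function.Injective (fun i : Fin (K₀ * n + 1) => ((x i : ℝ) : ℂ)) := by
    intro i j hij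
    by_contra h
    have h1 := hsep i j h
    have h2' : ((x i : ℝ) : ℂ) = ((x j : ℝ) : ℂ) := hij
    have h2 : x i = x j := by exact_mod_cast h2'
    rw [h2, sub_self, abs_zero] at h1
    linarith
  have hRU' : ∀ t ∈ Icc (0 : ℝ) 1, closedBall (t : ℂ) (32 * ρ) ⊆ U := by
    rw [h32]
    exact hRU
  have hloc : ∀ z ∈ closedBall (c : ℂ) ρ, ‖f z‖ ≤ 4 * ((n + 1) * (9 * ρ / δ) ^ n * ε) := by
    intro z hz
    refine locR hρ hU (hRU' c hcI) hfd hH0 hH hA hnK hinj s hs ?_ hδ ?_ (fun i _ => hε i) hε0 hz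
    · intro i hi
      rw [mem_closedBall_iff_norm, hnorm, abs_le]
      have := hxc i hi
      constructor <;> linarith
    · intro i _ j _ hij
      rw [hnorm]
      exact hsep i j hij
  have hdist : |t - c| ≤ k * ρ := by
    have h1 : |t - c| ≤ 1 := by
      rw [abs_le]
      constructor
      · linarith [ht.1, hcI.2]
      · linarith [ht.2, hcI.1]
    have h2 : 1 ≤ k * ρ := by
      have := Nat.le_ceil (1 / ρ)
      rw [div_le_iff₀ hρ] at this
      exact this
    linarith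
  have h1 := chain hρ hU hRU' hfd hH0 hH hA hcI hloc k t ht hdist z hz
  refine h1.trans ?_
  have h2 : (9 * ρ / δ) ^ n = (9 * ρ) ^ n * (1 / δ) ^ n := by rw [← mul_pow]; ring
  have h3 : (1 / δ) ^ n ≤ (1 / δ) ^ (K₀ * n) := by
    refine pow_le_pow_right₀ ?_ ?_
    · rw [le_div_iff₀ hδ]
      linarith
    · exact Nat.le_mul_of_pos_left n (by omega)
  have h4 : 0 ≤ 4 * ((n : ℝ) + 1) * (9 * ρ) ^ n * Kd A ^ k := by
    have := Kd_one A
    positivity
  have h5 : 0 ≤ (1 / δ) ^ (K₀ * n) := by positivity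
  calc 4 * ((n + 1) * (9 * ρ / δ) ^ n * ε) * Kd A ^ k = (4 * ((n : ℝ) + 1) * (9 * ρ) ^ n * Kd A ^ k) * (1 / δ) ^ n * ε := by
        rw [h2]; ring
    _ ≤ (4 * ((n : ℝ) + 1) * (9 * ρ) ^ n * Kd A ^ k) * (1 / δ) ^ (K₀ * n) * ε := by
        exact mul_le_mul_of_nonneg_right (mul_le_mul_of_nonneg_left h3 h4) hε0
    _ ≤ (1 + 4 * ((n : ℝ) + 1) * (9 * ρ) ^ n * Kd A ^ k) * (1 / δ) ^ (K₀ * n) * ε := by
        refine mul_le_mul_of_nonneg_right (mul_le_mul_of_nonneg_right (by linarith) h5) hε0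

end Pool.Agent.Helper85.AR
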